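import Pool.Agent.J4.H90.NO.Core

/-!
Exponential moments: asymptotics.
-/

set_option autoImplicit false
set_option maxHeartbeats 4000000
open MeasureTheory Finset Filter Topology

namespace Pool.Agent.J4.H90.NO

open Pool.Agent.K4H61.HS

theorem asym_mgf {d : ℕ} {L : ℕ → ℝ} {N : ℕ → ℕ} {ρ h : ℝ} (hd : 1 ≤ d) (r M E : ℝ) (hh : 0 < h)
    (hρ : 0 < ρ) (hrh : 2 * (√d * h) < r) (y : ℝ) (hy : y = ρ * bv d (r - 2 * (√d * h)))
    (hL : Tendsto L atTop atTop) (hN : Tendsto (fun k => (N k : ℝ) / L k ^ d) atTop (𝓝 ρ))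
    (hE : -(y / 2) + (h ^ d / bv d (r - 2 * (√d * h)) + eps d) * Real.exp (2 * M) *
      Real.exp (y + 1) < E) :
    ∀ᶠ k in atTop, ∀ φ : (Fin d → ℝ) → ℝ, Measurable φ → (∀ x, |φ x| ≤ M) →
      ∫ x in config d r (L k) (N k), ∏ i, Real.exp (φ (x i)) ≤
        (∫ y in cube d (L k), Real.exp (φ y)) ^ (N k) * Real.exp (N k * E) := by
  classical
  have hdh : 0 ≤ √d * h := by positivity
  have hr : 0 < r := by linarith
  set B := bv d (r - 2 * (√d * h)) with hB
  have hB0 : 0 < B := bv_pos d (by linarith)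
  have hy0 : 0 < y := by rw [hy]; positivity
  set s := r - √d * h with hs
  have hs0 : 0 < s := by linarith
  set m : ℕ → ℕ := fun k => ⌊L k / h⌋₊ + 1 with hm
  have hmL : Tendsto (fun k => (m k : ℝ) * h / L k) atTop (𝓝 1) := lim_floor' hh hL
  have hminf := lim_m hh hL hmL
  have hhd : 0 < h ^ d := by positivity
  set n : ℕ → ℝ := fun k => (m k : ℝ) ^ d with hn
  set κ : ℕ → ℝ := fun k => B / (m k * h + 2 * s) ^ d with hκ
  have hNinf : Tendsto (fun k => (N k : ℝ)) atTop atTop := lim_N hd hρ hL hN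
  have hκ0 : Tendsto κ atTop (𝓝 0) := lim_k hd B hh hminf
  have hκn : Tendsto (fun k => κ k * n k) atTop (𝓝 (B / h ^ d)) := lim_kn B hh hs0.le hminf
  have c1 : ∀ᶠ k in atTop, 0 < m k := by
    filter_upwards [hminf.eventually_gt_atTop 0] with k hk
    exact_mod_cast hk
  have hκN : Tendsto (fun k => κ k * N k) atTop (𝓝 y) := by
    have h1 := hκn.mul (lim_Nn hh hL hmL hN)
    have h2 : B / h ^ d * (ρ * h ^ d) = y := by rw [hy]; field_simp
    rw [h2] at h1
    refine h1.congr' ?_
    filter_upwards [c1] with k hk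
    have hmk : (0 : ℝ) < m k := by exact_mod_cast hk
    simp only [hn]
    field_simp
  have hκL : Tendsto (fun k => κ k * L k ^ d) atTop (𝓝 B) := by
    have h1 := hκN.div hN hρ.ne'
    have h2 : y / ρ = B := by rw [hy]; field_simp
    rw [h2] at h1
    refine h1.congr' ?_
    filter_upwards [hNinf.eventually_gt_atTop 0, hL.eventually_gt_atTop 0] with k hk hk2
    simp only [Pi.div_apply]
    have : 0 < L k ^ d := by positivity
    field_simp
  have c2 : ∀ᶠ k in atTop, 1 ≤ N k := by
    filter_upwards [hNinf.eventually_ge_atTop 1] with k hk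
    exact_mod_cast hk
  have c3 : ∀ᶠ k in atTop, κ k < 1 := hκ0.eventually_lt_const one_pos
  have c4 : ∀ᶠ k in atTop, N k * (κ k / (1 - κ k)) ≤ y + 1 := by
    have l1 : Tendsto (fun k => (κ k * N k) / (1 - κ k)) atTop (𝓝 (y / (1 - 0))) :=
      hκN.div (hκ0.const_sub 1) (by norm_num)
    have l2 : y / (1 - 0) < y + 1 := by simp
    filter_upwards [l1.eventually_lt_const l2] with k hk
    refine le_trans (le_of_eq ?_) hk.le
    ring
  have c5 : ∀ᶠ k in atTop, -(κ k * (N k - 1) / 2) +
      (h ^ d + B * eps d) * Real.exp (2 * M) / (κ k * L k ^ d) * Real.exp (y + 1) ≤ E := by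
    have e0 : Tendsto (fun k => -(κ k * (N k - 1) / 2)) atTop (𝓝 (-((y - 0) / 2))) := by
      refine (((hκN.sub hκ0).div_const 2).neg).congr fun k => ?_
      ring
    have e1 : Tendsto (fun k => (h ^ d + B * eps d) * Real.exp (2 * M) / (κ k * L k ^ d) *
        Real.exp (y + 1)) atTop
        (𝓝 ((h ^ d + B * eps d) * Real.exp (2 * M) / B * Real.exp (y + 1))) :=
      (tendsto_const_nhds.div hκL hB0.ne').mul_const _
    have e4 := e0.add e1
    have e5 : (h ^ d + B * eps d) * Real.exp (2 * M) / B = (h ^ d / B + eps d) * Real.exp (2 * M) := by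
      field_simp
    rw [e5, sub_zero] at e4
    filter_upwards [e4.eventually_lt_const hE] with k hk using hk.le
  filter_upwards [c1, c2, c3, c4, c5, hL.eventually_gt_atTop 0] with k k1 k2 k3 k4 k5 k6
  intro φ hφ hφM
  have hmk : (0 : ℝ) < m k := by exact_mod_cast k1
  have hκk : 0 < κ k := by simp only [hκ]; positivity
  have hLd : 0 < L k ^ d := by positivity
  have heps := eps_pos d
  set G := ∫ y in cube d (L k), Real.exp (φ y) with hG
  have hem : Measurable fun x => Real.exp (φ x) := Real.measurable_exp.comp hφ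
  have hGlow : Real.exp (-M) * L k ^ d ≤ G := by
    have h1 : ∫ _y in cube d (L k), Real.exp (-M) = Real.exp (-M) * L k ^ d := by
      rw [setIntegral_const, Measure.real, cube_vol d k6.le, ENNReal.toReal_ofReal hLd.le, smul_eq_mul]
      ring
    rw [← h1]
    have hfin : volume (cube d (L k)) ≠ ⊤ := by rw [cube_vol d k6.le]; exact ENNReal.ofReal_ne_top
    refine setIntegral_mono_on ?_ ?_ (cube_meas d _) fun x _ => ?_
    · exact integrableOn_const hfin
    · refine Measure.integrableOn_of_bounded (M := Real.exp M) hfin hem.aestronglyMeasurable ?_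
      refine Eventually.of_forall fun x => ?_
      rw [Real.norm_eq_abs, abs_of_pos (Real.exp_pos _)]
      exact Real.exp_le_exp.2 (abs_le.1 (hφM x)).2
    · exact Real.exp_le_exp.2 (abs_le.1 (hφM x)).1
  have hG0 : 0 < G := lt_of_lt_of_le (by positivity) hGlow
  have hc := core (m := m k) (N := N k) hd r (L k) h (y + 1) (Real.exp M) (κ k) G k2 hh (by
      have := Nat.lt_floor_add_one (L k / h)
      rw [div_lt_iff₀ hh] at this
      simp only [hm]
      push_cast
      exact this) k1 hrh (Real.exp_pos _) (fun x => Real.exp (φ x)) hem (fun x => (Real.exp_pos _).le)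
      (fun x => Real.exp_le_exp.2 (abs_le.1 (hφM x)).2) hG hG0 rfl k3 k4
  refine hc.trans ?_
  refine mul_le_mul_of_nonneg_left (Real.exp_le_exp.2 ?_) (by positivity)
  refine mul_le_mul_of_nonneg_left (le_trans ?_ k5) (Nat.cast_nonneg _)
  refine add_le_add le_rfl ?_
  refine mul_le_mul_of_nonneg_right ?_ (Real.exp_pos _).le
  rw [div_le_div_iff₀ (by positivity) (by positivity)]
  have h2 : Real.exp (2 * M) = Real.exp M * Real.exp M := by rw [← Real.exp_add]; ring_nf
  have h3 : Real.exp (2 * M) * (Real.exp (-M) * L k ^ d) = Real.exp M * L k ^ d := by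
    rw [h2]
    have : Real.exp M * Real.exp (-M) = 1 := by rw [← Real.exp_add]; simp
    calc Real.exp M * Real.exp M * (Real.exp (-M) * L k ^ d) =
        Real.exp M * (Real.exp M * Real.exp (-M)) * L k ^ d := by ring
      _ = _ := by rw [this]; ring
  have h4 : Real.exp M * L k ^ d ≤ Real.exp (2 * M) * G := by
    rw [← h3]
    exact mul_le_mul_of_nonneg_left hGlow (Real.exp_pos _).le
  have hA : 0 ≤ (h ^ d + B * eps d) * κ k := by positivity
  calc (h ^ d + B * eps d) * Real.exp M * (κ k * L k ^ d) =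
      ((h ^ d + B * eps d) * κ k) * (Real.exp M * L k ^ d) := by ring
    _ ≤ ((h ^ d + B * eps d) * κ k) * (Real.exp (2 * M) * G) := mul_le_mul_of_nonneg_left h4 hA
    _ = _ := by ring

end Pool.Agent.J4.H90.NO
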