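import Pool.Agent.J4.H90.NO.Defs

/-!
Project NO: the integral of a product over the configurations of hard spheres is at most `N!` times
the weighted number of independent sets of cells.
-/

set_option autoImplicit false
open MeasureTheory Finset

namespace Pool.Agent.J4.H90.NO

open Pool.Agent.K4H61.HS

namespace Cfg

open Classical in
lemma tuples_sum {X : Type} [Fintype X] (R : X → X → Prop) (hrefl : ∀ u, R u u) (N : ℕ)
    (w : X → ℝ) :
    ∑ c ∈ Finset.univ.filter (fun c : Fin N → X => ∀ i j, i ≠ j → ¬ R (c i) (c j)),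
        ∏ i, w (c i) =
      (N.factorial : ℝ) * icw R w Finset.univ N := by
  set T := Finset.univ.filter (fun c : Fin N → X => ∀ i j, i ≠ j → ¬ R (c i) (c j)) with hT
  have hinj : ∀ c ∈ T, Function.Injective c := by
    intro c hc i j hij
    by_contra hne
    rw [hT, Finset.mem_filter] at hc
    exact hc.2 i j hne (hij ▸ hrefl _)
  have h1 : ∀ c ∈ T, Finset.univ.image c ∈ (Finset.powersetCard N Finset.univ).filter (Ind R) := by
    intro c hc
    rw [Finset.mem_filter, Finset.mem_powersetCard]
    refine ⟨⟨Finset.subset_univ _, ?_⟩, ?_⟩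
    · rw [Finset.card_image_of_injective _ (hinj c hc), Finset.card_univ, Fintype.card_fin]
    · intro u hu v hv huv
      rw [Finset.mem_image] at hu hv
      obtain ⟨i, _, rfl⟩ := hu
      obtain ⟨j, _, rfl⟩ := hv
      rw [hT, Finset.mem_filter] at hc
      exact hc.2 i j (fun h => huv (by rw [h]))
  rw [← Finset.sum_fiberwise_of_maps_to h1]
  have h2 : ∀ I ∈ (Finset.powersetCard N (Finset.univ : Finset X)).filter (Ind R),
      (T.filter (fun c => Finset.univ.image c = I)).card = N.factorial := by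
    intro I hI
    rw [Finset.mem_filter, Finset.mem_powersetCard] at hI
    obtain ⟨⟨_, hIc⟩, hI2⟩ := hI
    have h3 : (Finset.univ : Finset (Fin N ↪ I)).card = N.factorial := by
      rw [Finset.card_univ, Fintype.card_embedding_eq, Fintype.card_coe, hIc, Fintype.card_fin,
        Nat.descFactorial_self]
    rw [← h3]
    symm
    refine Finset.card_bij (fun e _ => fun i => ((e i : I) : X)) ?_ ?_ ?_
    · intro e _
      rw [Finset.mem_filter, hT, Finset.mem_filter]
      have hcinj : Function.Injective (fun i => ((e i : I) : X)) :=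
        Subtype.val_injective.comp e.injective
      refine ⟨⟨Finset.mem_univ _, fun i j hij => ?_⟩, ?_⟩
      · exact hI2 _ (e i).2 _ (e j).2 (fun h => hij (hcinj h))
      · refine Finset.eq_of_subset_of_card_le ?_ ?_
        · intro x hx
          rw [Finset.mem_image] at hx
          obtain ⟨i, _, rfl⟩ := hx
          exact (e i).2
        · rw [hIc, Finset.card_image_of_injective _ hcinj, Finset.card_univ, Fintype.card_fin]
    · intro e _ e' _ he
      ext i
      exact congrFun he i
    · intro c hc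
      rw [Finset.mem_filter] at hc
      have hmem : ∀ i, c i ∈ I := fun i => by
        rw [← hc.2]
        exact Finset.mem_image_of_mem _ (Finset.mem_univ _)
      refine ⟨⟨fun i => ⟨c i, hmem i⟩, fun i j hij => hinj c hc.1 (congrArg Subtype.val hij)⟩,
        Finset.mem_univ _, rfl⟩
  unfold icw
  rw [Finset.mul_sum]
  refine Finset.sum_congr rfl fun I hI => ?_
  have h3 : ∀ c ∈ T.filter (fun c => Finset.univ.image c = I), ∏ i, w (c i) = ∏ u ∈ I, w u := by
    intro c hc
    rw [Finset.mem_filter] at hc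
    rw [← hc.2, Finset.prod_image (fun i _ j _ h => hinj c hc.1 h)]
  rw [Finset.sum_congr rfl h3, Finset.sum_const, h2 I hI, nsmul_eq_mul]

variable {d m N : ℕ}

lemma cellF_eq (h : ℝ) (c : Fin d → Fin m) : cellF h c =
    Set.univ.pi fun k => Set.Ico (((c k : ℕ) : ℝ) * h) (((c k : ℕ) : ℝ) * h + h) := by
  ext y
  simp only [cellF, Set.mem_ofPred_eq, Set.mem_pi, Set.mem_univ, true_imp_iff, Set.mem_Ico]
  refine forall_congr' fun k => ?_
  rw [add_mul, one_mul]

lemma cellF_meas (h : ℝ) (c : Fin d → Fin m) : MeasurableSet (cellF h c) := by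
  rw [cellF_eq]
  exact MeasurableSet.univ_pi fun _ => measurableSet_Ico

lemma mem_box (h : ℝ) (c : Fin N → Fin d → Fin m) (x : Fin N → Fin d → ℝ) :
    x ∈ box h c ↔ ∀ i, x i ∈ cellF h (c i) := by
  simp only [cellF_eq, K4H61.HS.box, Set.mem_pi, Set.mem_univ, true_imp_iff]

lemma int_box (h : ℝ) (g : (Fin d → ℝ) → ℝ) (c : Fin N → Fin d → Fin m) :
    ∫ x in box h c, ∏ i, g (x i) = ∏ i, ∫ y in cellF h (c i), g y := by
  rw [← integral_indicator (box_meas h c)]
  have h1 : ∀ x : Fin N → Fin d → ℝ, (box h c).indicator (fun x => ∏ i, g (x i)) x =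
      ∏ i, (cellF h (c i)).indicator g (x i) := by
    intro x
    by_cases hx : x ∈ box h c
    · rw [Set.indicator_of_mem hx]
      rw [mem_box] at hx
      exact Finset.prod_congr rfl fun i _ => (Set.indicator_of_mem (hx i) g).symm
    · rw [Set.indicator_of_notMem hx]
      rw [mem_box] at hx
      push Not at hx
      obtain ⟨i, hi⟩ := hx
      exact (Finset.prod_eq_zero (Finset.mem_univ i) (Set.indicator_of_notMem hi g)).symm
  simp_rw [h1]
  rw [integral_fintype_prod_volume_eq_prod (fun i => (cellF h (c i)).indicator g)]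
  exact Finset.prod_congr rfl fun i _ => integral_indicator (cellF_meas h (c i))

end Cfg

open Cfg in
theorem config_int_le {d m : ℕ} (r L h : ℝ) (N : ℕ) (hh : 0 < h) (hm : L < m * h) (hr : √d * h < r)
    (g : (Fin d → ℝ) → ℝ) (hg : Measurable g) (hg0 : ∀ x, 0 ≤ g x) (b : ℝ) (hgb : ∀ x, g x ≤ b) :
    ∫ x in config d r L N, ∏ i, g (x i) ≤
      (N.factorial : ℝ) * icw (near (d := d) (m := m) h (r - √d * h))
        (fun c => ∫ y in cellF h c, g y) Finset.univ N := by
  classical
  have hr0 : 0 < r := lt_of_le_of_lt (by positivity) hr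
  set T := Finset.univ.filter (fun c : Fin N → Fin d → Fin m =>
    ∀ i j, i ≠ j → ¬ near h (r - √d * h) (c i) (c j)) with hT
  have hTc := tuples_sum (near (d := d) (m := m) h (r - √d * h)) (near_refl _ _) N
    (fun c => ∫ y in cellF h c, g y)
  have hsub : config d r L N ⊆ ⋃ c ∈ T, box h c := by
    intro x hx
    obtain ⟨hx1, hx2⟩ := hx
    have hfl : ∀ i k, ⌊x i k / h⌋₊ < m := by
      intro i k
      rw [Nat.floor_lt (div_nonneg (hx1 i k).1 hh.le), div_lt_iff₀ hh]
      exact lt_of_le_of_lt (hx1 i k).2 hm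
    set c : Fin N → Fin d → Fin m := fun i k => ⟨⌊x i k / h⌋₊, hfl i k⟩ with hc
    have hxc : ∀ i, (WithLp.toLp 2 (x i) : ES d) ∈ cell h (c i) := by
      intro i k
      have h1 : (⌊x i k / h⌋₊ : ℝ) ≤ x i k / h := Nat.floor_le (div_nonneg (hx1 i k).1 hh.le)
      have h2 : x i k / h < ⌊x i k / h⌋₊ + 1 := Nat.lt_floor_add_one _
      rw [le_div_iff₀ hh] at h1
      rw [div_lt_iff₀ hh] at h2
      refine ⟨h1, ?_⟩
      have : ((⌊x i k / h⌋₊ : ℝ) + 1) * h = (⌊x i k / h⌋₊ : ℝ) * h + h := by ring
      rw [this] at h2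
      exact h2
    rw [Set.mem_iUnion₂]
    refine ⟨c, ?_, (mem_box_iff h c x).2 hxc⟩
    rw [hT, Finset.mem_filter]
    refine ⟨Finset.mem_univ _, fun i j hij => ?_⟩
    rw [near_iff (by linarith)]
    have h3 := hx2 i j hij
    rw [sum_eq_norm] at h3
    have h4 : r ≤ ‖(WithLp.toLp 2 (x i) : ES d) - WithLp.toLp 2 (x j)‖ :=
      le_of_sq_le_sq h3 (norm_nonneg _)
    have h5 := cell_dist hh (hxc i) (hxc j)
    set a := (WithLp.toLp 2 (x i) : ES d) - WithLp.toLp 2 (x j) with ha
    set b := corner h (c i) - corner h (c j) with hb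
    have h6 : ‖a‖ ≤ ‖a - b‖ + ‖b‖ := by
      have := norm_add_le (a - b) b
      rwa [sub_add_cancel] at this
    push Not
    linarith
  have hmeasU : MeasurableSet (⋃ c ∈ T, box h c) :=
    Finset.measurableSet_biUnion _ fun c _ => box_meas h c
  have hG : Measurable (fun x : Fin N → Fin d → ℝ => ∏ i, g (x i)) :=
    Finset.measurable_prod _ fun i _ => hg.comp (measurable_pi_apply i)
  have hG0 : ∀ x : Fin N → Fin d → ℝ, 0 ≤ ∏ i, g (x i) := fun x =>
    Finset.prod_nonneg fun i _ => hg0 _
  have hGb : ∀ x : Fin N → Fin d → ℝ, ∏ i, g (x i) ≤ b ^ N := fun x => by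
    have := Finset.prod_le_prod (s := Finset.univ) (f := fun i => g (x i)) (g := fun _ => b)
      (fun i _ => hg0 _) (fun i _ => hgb _)
    simpa using this
  have hIntc : ∀ c : Fin N → Fin d → Fin m,
      IntegrableOn (fun x : Fin N → Fin d → ℝ => ∏ i, g (x i)) (box h c) := by
    intro c
    refine Measure.integrableOn_of_bounded (M := b ^ N) ?_ hG.aestronglyMeasurable ?_
    · rw [box_vol hh]
      exact ENNReal.ofReal_ne_top
    · refine Filter.Eventually.of_forall fun x => ?_
      rw [Real.norm_of_nonneg (hG0 x)]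
      exact hGb x
  have hIntU : IntegrableOn (fun x : Fin N → Fin d → ℝ => ∏ i, g (x i)) (⋃ c ∈ T, box h c) := by
    rw [integrableOn_finset_iUnion]
    exact fun c _ => hIntc c
  have h1 : ∫ x in config d r L N, ∏ i, g (x i) ≤ ∫ x in ⋃ c ∈ T, box h c, ∏ i, g (x i) := by
    refine setIntegral_mono_set hIntU (Filter.Eventually.of_forall hG0) ?_
    exact hsub.eventuallyLE
  refine h1.trans (le_of_eq ?_)
  rw [← hTc]
  rw [integral_biUnion_finset T (fun c _ => box_meas h c)
    (fun c _ c' _ hne => box_disj hh hne) (fun c _ => hIntc c)]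
  exact Finset.sum_congr rfl fun c _ => int_box h g c

end Pool.Agent.J4.H90.NO
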