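import Pool.Agent.J4.H90.NO.Defs

/-!
Some weighted closed neighbourhood is large (weighted copy of `exists_large`).
-/

set_option autoImplicit false
open MeasureTheory Set

namespace Pool.Agent.J4.H90.NO

open Pool.Agent.K4H61.HS

namespace Elw

variable {d m : ℕ}

/-- the weighted indicator function of the cells of `U` -/
noncomputable def ff (h : ℝ) (w : (Fin d → Fin m) → ℝ) (U : Finset (Fin d → Fin m)) : ES d → ℝ :=
  fun x => ∑ c ∈ U, w c * i1 (cell h c) x

lemma ci {h : ℝ} (hh : 0 < h) (c : Fin d → Fin m) : Integrable (i1 (cell h c)) :=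
  i1_integrable _ (cell_meas h c) (by rw [cell_vol hh]; exact ENNReal.ofReal_lt_top)

lemma cI {h : ℝ} (hh : 0 < h) (c : Fin d → Fin m) : ∫ x, i1 (cell h c) x = h ^ d := by
  rw [i1_integral _ (cell_meas h c), cell_vol hh, ENNReal.toReal_ofReal (by positivity)]

lemma ff_memLp {h : ℝ} (hh : 0 < h) (w : (Fin d → Fin m) → ℝ) (U : Finset (Fin d → Fin m)) :
    MemLp (ff h w U) 2 volume := by
  unfold ff
  refine memLp_finsetSum _ fun c _ => ?_
  exact (i1_memLp _ (cell_meas h c) (by rw [cell_vol hh]; exact ENNReal.ofReal_lt_top)).const_mul _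

lemma ff_integrable {h : ℝ} (hh : 0 < h) (w : (Fin d → Fin m) → ℝ) (U : Finset (Fin d → Fin m)) :
    Integrable (ff h w U) := by
  unfold ff
  exact integrable_finsetSum _ fun c _ => (ci hh c).const_mul _

lemma ff_integral {h : ℝ} (hh : 0 < h) (w : (Fin d → Fin m) → ℝ) (U : Finset (Fin d → Fin m)) :
    ∫ x, ff h w U x = (∑ c ∈ U, w c) * h ^ d := by
  unfold ff
  rw [integral_finsetSum _ fun c _ => (ci hh c).const_mul _, Finset.sum_mul]
  refine Finset.sum_congr rfl fun c _ => ?_
  rw [integral_const_mul, cI hh]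

lemma ff_mem {h : ℝ} (hh : 0 < h) (w : (Fin d → Fin m) → ℝ) (U : Finset (Fin d → Fin m))
    {c : Fin d → Fin m} (hc : c ∈ U) {x : ES d} (hx : x ∈ cell h c) : ff h w U x = w c := by
  unfold ff
  rw [Finset.sum_eq_single c]
  · rw [i1_mem hx, mul_one]
  · intro c' _ hne
    rw [i1_nmem (Set.disjoint_left.1 (cell_disj hh hne.symm) hx), mul_zero]
  · intro h'; exact absurd hc h'

lemma ff_nmem {h : ℝ} (w : (Fin d → Fin m) → ℝ) (U : Finset (Fin d → Fin m))
    {x : ES d} (hx : x ∉ cells h U) : ff h w U x = 0 := by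
  unfold ff
  refine Finset.sum_eq_zero fun c hc => ?_
  rw [i1_nmem, mul_zero]
  intro h1
  apply hx
  unfold cells
  simp only [mem_iUnion, exists_prop]
  exact ⟨c, hc, h1⟩

lemma ff_sq_le {h : ℝ} (hh : 0 < h) (w : (Fin d → Fin m) → ℝ) (hw0 : ∀ c, 0 ≤ w c)
    (hw1 : ∀ c, w c ≤ 1) (U : Finset (Fin d → Fin m)) (x : ES d) :
    ff h w U x ^ 2 ≤ ff h w U x := by
  by_cases hx : x ∈ cells h U
  · unfold cells at hx
    simp only [mem_iUnion, exists_prop] at hx
    obtain ⟨c, hc, hxc⟩ := hx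
    rw [ff_mem hh w U hc hxc]
    nlinarith [hw0 c, hw1 c]
  · rw [ff_nmem w U hx]
    norm_num

lemma AA_f1 (r : ℝ) (f : ES d → ℝ) (hf : Integrable f) (S T : Set (ES d))
    (hS : ∀ x, x ∉ S → f x = 0) (hball : ∀ x ∈ S, Metric.ball x r ⊆ T) :
    AA r f (i1 T) = (volume (Metric.ball (0 : ES d) r)).toReal * ∫ x, f x := by
  rw [← (kr_mul_left r f hf).2]
  unfold AA
  refine integral_congr_ae (Filter.Eventually.of_forall fun p => ?_)
  dsimp only
  by_cases hp : p.1 ∈ S
  · unfold kr
    by_cases hk : dist p.1 p.2 < r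
    · rw [if_pos hk, i1_mem (hball _ hp (by rw [Metric.mem_ball']; exact hk)), mul_one]
    · rw [if_neg hk, zero_mul, zero_mul]
  · rw [hS _ hp, zero_mul, mul_zero]

lemma AA_f2 (r : ℝ) (f : ES d → ℝ) (hf : Integrable f) (S T : Set (ES d))
    (hS : ∀ x, x ∉ S → f x = 0) (hball : ∀ x ∈ S, Metric.ball x r ⊆ T) :
    AA r (i1 T) f = (volume (Metric.ball (0 : ES d) r)).toReal * ∫ x, f x := by
  rw [← (kr_mul_right r f hf).2]
  unfold AA
  refine integral_congr_ae (Filter.Eventually.of_forall fun p => ?_)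
  dsimp only
  by_cases hp : p.2 ∈ S
  · unfold kr
    by_cases hk : dist p.1 p.2 < r
    · rw [if_pos hk, i1_mem (hball _ hp (by rw [Metric.mem_ball]; exact hk)), one_mul]
    · rw [if_neg hk, zero_mul, zero_mul]
  · rw [hS _ hp, mul_zero, mul_zero]

lemma AA_cells_w (s h : ℝ) (hh : 0 < h) (hs : √d * h < s) (w : (Fin d → Fin m) → ℝ)
    (hw0 : ∀ c, 0 ≤ w c) (U : Finset (Fin d → Fin m))
    (P : Finset ((Fin d → Fin m) × (Fin d → Fin m)))
    (hP : ∀ v ∈ U, ∀ u ∈ U, near h s v u → (v, u) ∈ P) :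
    AA (s - √d * h) (ff h w U) (ff h w U) ≤ (∑ q ∈ P, w q.1 * w q.2) * (h ^ d) ^ 2 := by
  have hUm := ff_memLp hh w U
  have hs0 : 0 < s := lt_of_le_of_lt (by positivity) hs
  have hprod : ∀ q : (Fin d → Fin m) × (Fin d → Fin m), Integrable
      (fun p : ES d × ES d => w q.1 * w q.2 * (i1 (cell h q.1) p.1 * i1 (cell h q.2) p.2))
      (volume.prod volume) :=
    fun q => ((ci hh q.1).mul_prod (ci hh q.2)).const_mul _
  have h1 : (∑ q ∈ P, w q.1 * w q.2) * (h ^ d) ^ 2 = ∫ p : ES d × ES d, ∑ q ∈ P,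
      w q.1 * w q.2 * (i1 (cell h q.1) p.1 * i1 (cell h q.2) p.2) ∂(volume.prod volume) := by
    rw [integral_finsetSum _ fun q _ => hprod q, Finset.sum_mul]
    refine Finset.sum_congr rfl fun q _ => ?_
    rw [integral_const_mul, integral_prod_mul, cI hh, cI hh, sq]
  rw [h1]
  unfold AA
  refine integral_mono (AA_integrable _ _ _ hUm hUm) (integrable_finsetSum _ fun q _ => hprod q)
    fun p => ?_
  dsimp only
  have hnn : ∀ q ∈ P, 0 ≤ w q.1 * w q.2 * (i1 (cell h q.1) p.1 * i1 (cell h q.2) p.2) :=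
    fun q _ => mul_nonneg (mul_nonneg (hw0 _) (hw0 _)) (mul_nonneg (i1_nonneg _ _) (i1_nonneg _ _))
  by_cases hp1 : p.1 ∈ cells h U
  · by_cases hp2 : p.2 ∈ cells h U
    · unfold kr
      by_cases hk : dist p.1 p.2 < s - √d * h
      · rw [if_pos hk]
        unfold cells at hp1 hp2
        simp only [mem_iUnion, exists_prop] at hp1 hp2
        obtain ⟨v, hv, hxv⟩ := hp1
        obtain ⟨u, hu, hxu⟩ := hp2
        have hnear : near h s v u := by
          rw [near_iff hs0]
          have h3 := cell_dist hh hxv hxu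
          rw [dist_eq_norm] at hk
          have h4 : corner h v - corner h u =
            (p.1 - p.2) - ((p.1 - p.2) - (corner h v - corner h u)) := by abel
          calc ‖corner h v - corner h u‖ ≤
              ‖p.1 - p.2‖ + ‖(p.1 - p.2) - (corner h v - corner h u)‖ := by
                conv_lhs => rw [h4]
                exact norm_sub_le _ _
            _ < s := by linarith
        have h5 := Finset.single_le_sum hnn (hP v hv u hu hnear)
        dsimp only at h5
        rw [i1_mem hxv, i1_mem hxu, one_mul, mul_one] at h5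
        rw [ff_mem hh w U hv hxv, ff_mem hh w U hu hxu, one_mul]
        exact h5
      · rw [if_neg hk, zero_mul]
        exact Finset.sum_nonneg hnn
    · rw [ff_nmem w U hp2, mul_zero, mul_zero]
      exact Finset.sum_nonneg hnn
  · rw [ff_nmem w U hp1, zero_mul, mul_zero]
    exact Finset.sum_nonneg hnn

end Elw

open Elw in
theorem exists_large_w {d m : ℕ} (hd : 1 ≤ d) (s h : ℝ) (hh : 0 < h) (hs : √d * h < s)
    (w : (Fin d → Fin m) → ℝ) (hw0 : ∀ c, 0 ≤ w c) (hw1 : ∀ c, w c ≤ 1)
    (U : Finset (Fin d → Fin m)) (hU : U.Nonempty) : ∃ v ∈ U,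
      bv d (s - √d * h) * ((∑ c ∈ U, w c) / (m * h + 2 * s) ^ d - eps d / h ^ d) ≤
        ∑ u ∈ (open Classical in U.filter (fun u => near h s v u)), w u := by
  classical
  have hs0 : 0 < s - √d * h := by linarith
  have hsp : 0 < s := lt_of_le_of_lt (by positivity) hs
  set s0 := s - √d * h with hs0'
  set V := bv d s0 with hV
  have hVe : V = (volume (Metric.ball (0 : ES d) s0)).toReal := bv_eq d hs0
  have hV0 : 0 < V := bv_pos d hs0
  have heps : 0 < eps d := by unfold eps; positivity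
  have hhd : 0 < h ^ d := by positivity
  have hb'0 : 0 < (m * h + 2 * s) ^ d := by positivity
  have hwU : 0 ≤ ∑ c ∈ U, w c := Finset.sum_nonneg fun c _ => hw0 c
  rcases hwU.eq_or_lt with h0 | hwp
  · obtain ⟨v, hv⟩ := hU
    refine ⟨v, hv, ?_⟩
    rw [← h0, zero_div, zero_sub]
    refine le_trans ?_ (Finset.sum_nonneg fun c _ => hw0 c)
    have : 0 ≤ V * (eps d / h ^ d) := by positivity
    linarith [mul_neg V (eps d / h ^ d)]
  set A : Set (ES d) := cells h U with hA
  set W : Set (ES d) := bigW d m h s0 with hW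
  have hWm : MeasurableSet W := bigW_meas h s0
  have hWv' : volume W = ENNReal.ofReal ((m * h + 2 * s0) ^ d) := bigW_vol hh hs0
  have hWv : volume W < ⊤ := by rw [hWv']; exact ENNReal.ofReal_lt_top
  set a : ℝ := (∑ c ∈ U, w c) * h ^ d with ha
  set f : ES d → ℝ := ff h w U with hf
  have hfa : ∫ x, f x = a := ff_integral hh w U
  have hfi : Integrable f := ff_integrable hh w U
  set b : ℝ := (m * h + 2 * s0) ^ d with hb
  have hb0 : 0 < b := by rw [hb]; positivity
  have hWb : (volume W).toReal = b := by rw [hWv', ENNReal.toReal_ofReal hb0.le]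
  have ha0 : 0 < a := by rw [ha]; positivity
  set α := a / b with hα
  have hA2 : MemLp f 2 volume := ff_memLp hh w U
  have hW2 := i1_memLp W hWm hWv
  have hball : ∀ x ∈ A, Metric.ball x s0 ⊆ W := cells_ball hh U
  have hAW : ∀ x ∈ A, x ∈ W := fun x hx => hball x hx (Metric.mem_ball_self hs0)
  have hfS : ∀ x, x ∉ A → f x = 0 := fun x hx => ff_nmem w U hx
  set g : ES d → ℝ := fun x => f x - α * i1 W x with hg
  have hg2 : MemLp g 2 volume := hA2.sub (hW2.const_mul α)
  have hq := quad_L2 s0 (eps d * V) (by positivity) (fun ξ => by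
    have := ball_cos d hd s0 hs0 ξ
    linarith) g hg2
  have hgg : AA s0 g g = AA s0 f f - α * AA s0 f (i1 W) - α * AA s0 (i1 W) f
      + α ^ 2 * AA s0 (i1 W) (i1 W) := by
    unfold AA
    rw [← integral_const_mul, ← integral_const_mul, ← integral_const_mul, ← integral_sub,
      ← integral_sub, ← integral_add]
    · refine integral_congr_ae (Filter.Eventually.of_forall fun p => ?_)
      rw [hg]
      dsimp only
      ring
    · exact ((AA_integrable s0 _ _ hA2 hA2).sub ((AA_integrable s0 _ _ hA2 hW2).const_mul _)).sub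
        ((AA_integrable s0 _ _ hW2 hA2).const_mul _)
    · exact (AA_integrable s0 _ _ hW2 hW2).const_mul _
    · exact (AA_integrable s0 _ _ hA2 hA2).sub ((AA_integrable s0 _ _ hA2 hW2).const_mul _)
    · exact (AA_integrable s0 _ _ hW2 hA2).const_mul _
    · exact (AA_integrable s0 _ _ hA2 hA2)
    · exact (AA_integrable s0 _ _ hA2 hW2).const_mul _
  have hWi := i1_integrable W hWm hWv
  have hsq : ∫ x, g x ^ 2 ≤ a - a ^ 2 / b := by
    have h1 : ∀ x, g x ^ 2 ≤ (1 - 2 * α) * f x + α ^ 2 * i1 W x := by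
      intro x
      rw [hg]
      dsimp only
      have h2 := ff_sq_le hh w hw0 hw1 U x
      rw [← hf] at h2
      by_cases hx : x ∈ A
      · rw [i1_mem (hAW x hx)]
        nlinarith
      · rw [hfS x hx]
        by_cases hx' : x ∈ W
        · rw [i1_mem hx']; nlinarith
        · rw [i1_nmem hx']; nlinarith
    have h3 := integral_mono hg2.integrable_sq ((hfi.const_mul (1 - 2 * α)).add
      (hWi.const_mul (α ^ 2))) h1
    refine h3.trans (le_of_eq ?_)
    simp only [Pi.add_apply]
    rw [integral_add (hfi.const_mul _) (hWi.const_mul _), integral_const_mul, integral_const_mul,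
      hfa, i1_integral W hWm, hWb, hα]
    field_simp
    ring
  have e1 := AA_f1 s0 f hfi A W hfS hball
  have e2 := AA_f2 s0 f hfi A W hfS hball
  have e3 := AA_ind_le s0 W hWm hWv
  rw [← hVe, hfa] at e1 e2
  rw [← hVe, hWb] at e3
  have hq' : -(eps d * V) * (a - a ^ 2 / b) ≤ AA s0 g g := by
    refine le_trans ?_ hq
    have h8 : 0 ≤ eps d * V := by positivity
    nlinarith
  rw [hgg, e1, e2] at hq'
  set P : Finset ((Fin d → Fin m) × (Fin d → Fin m)) :=
    (U ×ˢ U).filter (fun p => near h s p.1 p.2) with hP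
  have e4 := AA_cells_w s h hh hs w hw0 U P (fun v hv u hu hn => by
    rw [hP, Finset.mem_filter, Finset.mem_product]
    exact ⟨⟨hv, hu⟩, hn⟩)
  rw [← hs0', ← hf] at e4
  have hα2 : α ^ 2 * AA s0 (i1 W) (i1 W) ≤ α ^ 2 * (V * b) :=
    mul_le_mul_of_nonneg_left e3 (by positivity)
  have h5 : α ^ 2 * (V * b) = V * (a ^ 2 / b) := by
    rw [hα]; field_simp
  have h6 : α * (V * a) = V * (a ^ 2 / b) := by
    rw [hα]; field_simp
  rw [h6] at hq'
  set Q : ℝ := ∑ q ∈ P, w q.1 * w q.2 with hQ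
  have h7 : V * (a ^ 2 / b) - eps d * V * a ≤ Q * (h ^ d) ^ 2 := by
    have h8 : 0 ≤ eps d * V * (a ^ 2 / b) := by positivity
    have h9 : -(eps d * V) * (a - a ^ 2 / b) = -(eps d * V * a) + eps d * V * (a ^ 2 / b) := by ring
    rw [h9] at hq'
    linarith
  have hbb : b ≤ (m * h + 2 * s) ^ d := by
    rw [hb]
    refine pow_le_pow_left₀ (by positivity) ?_ d
    have : s0 ≤ s := by rw [hs0']; have : 0 ≤ √d * h := by positivity
                        linarith
    linarith
  set b' := (m * h + 2 * s) ^ d with hb'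
  have h10 : V * (a ^ 2 / b') ≤ V * (a ^ 2 / b) := by gcongr
  have hPc : Q = ∑ v ∈ U, w v * ∑ u ∈ U.filter (fun u => near h s v u), w u := by
    rw [hQ, hP, Finset.sum_filter, Finset.sum_product]
    refine Finset.sum_congr rfl fun v _ => ?_
    rw [Finset.mul_sum, Finset.sum_filter]
  set X : ℝ := V * ((∑ c ∈ U, w c) / b' - eps d / h ^ d) with hX
  have h11 : (∑ v ∈ U, w v) * X ≤ Q := by
    have h12 : (∑ c ∈ U, w c) * X * (h ^ d) ^ 2 = V * (a ^ 2 / b') - eps d * V * a := by
      rw [ha, hX]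
      field_simp
    have h13 : (∑ c ∈ U, w c) * X * (h ^ d) ^ 2 ≤ Q * (h ^ d) ^ 2 := by
      rw [h12]; linarith
    exact le_of_mul_le_mul_right h13 (by positivity)
  by_contra hcon
  push Not at hcon
  have hlt : Q < (∑ v ∈ U, w v) * X := by
    rw [hPc, Finset.sum_mul]
    obtain ⟨v0, hv0, hv0p⟩ : ∃ v ∈ U, 0 < w v := by
      by_contra hc
      push Not at hc
      exact absurd (Finset.sum_nonpos hc) (not_le.2 hwp)
    refine Finset.sum_lt_sum (fun v hv => ?_) ⟨v0, hv0, ?_⟩
    · have := hcon v hv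
      refine mul_le_mul_of_nonneg_left ?_ (hw0 v)
      refine le_of_eq_of_le ?_ this.le
      exact Finset.sum_congr (by congr) fun _ _ => rfl
    · have := hcon v0 hv0
      refine mul_lt_mul_of_pos_left ?_ hv0p
      refine lt_of_eq_of_lt ?_ this
      exact Finset.sum_congr (by congr) fun _ _ => rfl
  linarith

end Pool.Agent.J4.H90.NO
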