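import Pool.Agent.J4.H90.NO.Defs

/-!
The upper bound for the weighted number of independent sets (weighted copy of `fin_upper`).
-/

set_option autoImplicit false
set_option maxHeartbeats 4000000
open MeasureTheory Finset

namespace Pool.Agent.J4.H90.NO

open Pool.Agent.K4H61.HS

theorem Fuw.th_bound {q s T : ℝ} (hq0 : 0 < q) (hq1 : q < 1) (hs : 0 ≤ s) (M : ℕ)
    (hM : M * ((1 - q) / q) ≤ T) : th q s M ≤ (1 + s) / (1 - q) * Real.exp T := by
  rw [th_eq hq0 hq1]
  have h1 : (1 / q) ^ M ≤ Real.exp T := by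
    have h2 : 1 / q ≤ Real.exp ((1 - q) / q) := by
      have := Real.add_one_le_exp ((1 - q) / q)
      have h3 : (1 - q) / q + 1 = 1 / q := by field_simp; ring
      linarith
    calc (1 / q) ^ M ≤ Real.exp ((1 - q) / q) ^ M := pow_le_pow_left₀ (by positivity) h2 M
      _ = Real.exp (M * ((1 - q) / q)) := by rw [← Real.exp_nat_mul]
      _ ≤ Real.exp T := Real.exp_le_exp.2 hM
  have h0 : 0 < 1 - q := by linarith
  rw [div_mul_eq_mul_div]
  refine div_le_div_of_nonneg_right ?_ h0.le
  calc (q + s) * ((1 / q) ^ M - 1) ≤ (q + s) * Real.exp T := by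
        refine mul_le_mul_of_nonneg_left (by linarith) (by linarith)
    _ ≤ (1 + s) * Real.exp T := by
        refine mul_le_mul_of_nonneg_right (by linarith) (Real.exp_pos _).le

theorem fin_upper_w {X : Type} [Fintype X] (R : X → X → Prop) (w : X → ℝ) (n : ℝ) (hn : n = ∑ u, w u) (hn0 : 0 < n)
    (q s T : ℝ) (N : ℕ) (hN : 1 ≤ N) (hq0 : 0 < q) (hq1 : q < 1) (hs : 0 ≤ s)
    (hkww : icw R w univ N ≤ q ^ (N.choose 2) * ((∑ u, w u) + th q s N) ^ N / (N.factorial : ℝ))
    (hT : N * ((1 - q) / q) ≤ T) :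
    icw R w univ N * (N.factorial : ℝ) ≤
      n ^ N * Real.exp (N * (-((1 - q) * (N - 1) / 2) + (1 + s) / ((1 - q) * n) * Real.exp T)) := by
  have hκ0 : 0 < 1 - q := by linarith
  have hNr : (0 : ℝ) < N := by exact_mod_cast hN
  rw [← hn] at hkww
  have hth := Fuw.th_bound hq0 hq1 hs N hT
  have hth0 : 0 ≤ th q s N := th_nonneg hq0 hs N
  have h1 : icw R w univ N * (N.factorial : ℝ) ≤ n ^ N * (q ^ (N.choose 2) * (1 + th q s N / n) ^ N) := by
    rw [le_div_iff₀ (by positivity)] at hkww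
    refine hkww.trans (le_of_eq ?_)
    have h0 : (n + th q s N) ^ N = n ^ N * (1 + th q s N / n) ^ N := by
      rw [← mul_pow]
      congr 1
      field_simp
    rw [h0]
    ring
  have h2 : q ^ (N.choose 2) ≤ Real.exp (-((1 - q) * (N * (N - 1) / 2))) := by
    have h1 : q ≤ Real.exp (-(1 - q)) := by
      have := Real.add_one_le_exp (-(1 - q)); linarith
    calc q ^ (N.choose 2) ≤ Real.exp (-(1 - q)) ^ (N.choose 2) := pow_le_pow_left₀ hq0.le h1 _
      _ = Real.exp (-((1 - q) * (N * (N - 1) / 2))) := by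
        rw [← Real.exp_nat_mul, Nat.cast_choose_two]
        congr 1; ring
  set E := (1 + s) / ((1 - q) * n) * Real.exp T with hE
  have hthn : th q s N / n ≤ E := by
    rw [hE, div_le_iff₀ hn0]
    refine hth.trans (le_of_eq ?_)
    field_simp
  have h3 : (1 + th q s N / n) ^ N ≤ Real.exp (N * E) := by
    rw [Real.exp_nat_mul]
    refine pow_le_pow_left₀ (by positivity) ?_ N
    have := Real.add_one_le_exp E
    linarith
  refine h1.trans ?_
  refine mul_le_mul_of_nonneg_left ?_ (by positivity)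
  have h5 : (N : ℝ) * (-((1 - q) * (N - 1) / 2) + E) =
      -((1 - q) * (N * (N - 1) / 2)) + N * E := by ring
  rw [h5, Real.exp_add]
  gcongr

end Pool.Agent.J4.H90.NO
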