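import Pool.Agent.J4.H90.NO.Defs

/-!
Hard spheres in high dimension: no positional order (project NO). The cells cover the cube.
-/

set_option autoImplicit false
set_option linter.all false
open MeasureTheory Finset

namespace Pool.Agent.J4.H90.NO

open Pool.Agent.K4H61.HS

theorem cellF_eq {d m : ℕ} (h : ℝ) (c : Fin d → Fin m) : cellF h c =
    Set.univ.pi fun k => Set.Ico (((c k : ℕ) : ℝ) * h) ((((c k : ℕ) : ℝ) + 1) * h) := by
  ext y
  simp only [cellF, Set.mem_setOf_eq, Set.mem_pi, Set.mem_univ, forall_true_left, Set.mem_Ico]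

theorem cellF_meas {d m : ℕ} (h : ℝ) (c : Fin d → Fin m) : MeasurableSet (cellF h c) := by
  rw [cellF_eq]
  exact MeasurableSet.univ_pi fun k => measurableSet_Ico

theorem cellF_vol {d m : ℕ} {h : ℝ} (hh : 0 < h) (c : Fin d → Fin m) :
    volume (cellF h c) = ENNReal.ofReal (h ^ d) := by
  rw [cellF_eq, Real.volume_pi_Ico]
  have e : ∀ k : Fin d, (((c k : ℕ) : ℝ) + 1) * h - ((c k : ℕ) : ℝ) * h = h := fun k => by ring
  simp only [e]
  rw [Finset.prod_const, Finset.card_univ, Fintype.card_fin, ENNReal.ofReal_pow hh.le]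

theorem cellF_disj {d m : ℕ} {h : ℝ} (hh : 0 < h) (c c' : Fin d → Fin m) (hc : c ≠ c') :
    Disjoint (cellF h c) (cellF h c') := by
  rw [Set.disjoint_left]
  intro y hy hy'
  obtain ⟨k, hk⟩ := Function.ne_iff.1 hc
  have hk' : (c k : ℕ) ≠ (c' k : ℕ) := fun h => hk (Fin.ext h)
  have h1 := hy k
  have h2 := hy' k
  rcases lt_or_gt_of_ne hk' with h3 | h3
  · have h4 : ((c k : ℕ) : ℝ) + 1 ≤ ((c' k : ℕ) : ℝ) := by exact_mod_cast h3
    have h5 := mul_le_mul_of_nonneg_right h4 hh.le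
    linarith [h1.2, h2.1]
  · have h4 : ((c' k : ℕ) : ℝ) + 1 ≤ ((c k : ℕ) : ℝ) := by exact_mod_cast h3
    have h5 := mul_le_mul_of_nonneg_right h4 hh.le
    linarith [h1.1, h2.2]

theorem int_cellF {d m : ℕ} {h : ℝ} (hh : 0 < h) (c : Fin d → Fin m)
    (g : (Fin d → ℝ) → ℝ) (hg : Measurable g) (hg0 : ∀ x, 0 ≤ g x) (b : ℝ) (hgb : ∀ x, g x ≤ b) :
    IntegrableOn g (cellF h c) := by
  refine Measure.integrableOn_of_bounded (M := b) ?_ hg.aestronglyMeasurable ?_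
  · rw [cellF_vol hh]
    exact ENNReal.ofReal_ne_top
  · refine Filter.Eventually.of_forall fun x => ?_
    rw [Real.norm_eq_abs, abs_of_nonneg (hg0 x)]
    exact hgb x

theorem cube_sub {d m : ℕ} {L h : ℝ} (hh : 0 < h) (hm : L < m * h) :
    cube d L ⊆ ⋃ c : Fin d → Fin m, cellF h c := by
  intro y hy
  have h1 : ∀ k, ⌊y k / h⌋₊ < m := by
    intro k
    rw [Nat.floor_lt (div_nonneg (hy k).1 hh.le), div_lt_iff₀ hh]
    exact lt_of_le_of_lt (hy k).2 hm
  refine Set.mem_iUnion.2 ⟨fun k => ⟨⌊y k / h⌋₊, h1 k⟩, fun k => ⟨?_, ?_⟩⟩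
  · have h2 := Nat.floor_le (div_nonneg (hy k).1 hh.le)
    rwa [le_div_iff₀ hh] at h2
  · have h2 := Nat.lt_floor_add_one (y k / h)
    rwa [div_lt_iff₀ hh] at h2

theorem sum_cellF {d m : ℕ} (L h : ℝ) (hh : 0 < h) (hm : L < m * h)
    (g : (Fin d → ℝ) → ℝ) (hg : Measurable g) (hg0 : ∀ x, 0 ≤ g x) (b : ℝ) (hgb : ∀ x, g x ≤ b)
    (hsupp : ∀ x, x ∉ cube d L → g x = 0) :
    ∑ c : Fin d → Fin m, ∫ y in cellF h c, g y = ∫ y in cube d L, g y := by
  rw [← integral_iUnion_fintype (cellF_meas h) (fun c c' hc => cellF_disj hh c c' hc)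
    (fun c => int_cellF hh c g hg hg0 b hgb)]
  exact setIntegral_eq_of_subset_of_forall_diff_eq_zero
    (MeasurableSet.iUnion fun c => cellF_meas h c) (cube_sub hh hm) (fun x hx => hsupp x hx.2)

theorem int_cellF_le {d m : ℕ} (h : ℝ) (hh : 0 < h) (c : Fin d → Fin m)
    (g : (Fin d → ℝ) → ℝ) (hg : Measurable g) (hg0 : ∀ x, 0 ≤ g x) (b : ℝ) (hgb : ∀ x, g x ≤ b) :
    0 ≤ ∫ y in cellF h c, g y ∧ ∫ y in cellF h c, g y ≤ b * h ^ d := by
  refine ⟨integral_nonneg hg0, ?_⟩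
  have h1 := norm_setIntegral_le_of_norm_le_const (μ := volume) (s := cellF h c) (f := g) (C := b)
    (by rw [cellF_vol hh]; exact ENNReal.ofReal_lt_top)
    (fun x _ => by rw [Real.norm_eq_abs, abs_of_nonneg (hg0 x)]; exact hgb x)
  rw [Real.norm_eq_abs, measureReal_def, cellF_vol hh, ENNReal.toReal_ofReal (by positivity)] at h1
  exact (le_abs_self _).trans h1

end Pool.Agent.J4.H90.NO
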