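import Pool.Agent.J4.H90.NO.Kww
import Pool.Agent.J4.H90.NO.Fuw
import Pool.Agent.J4.H90.NO.Elw
import Pool.Agent.J4.H90.NO.Cfg
import Pool.Agent.J4.H90.NO.Sumc

/-!
The weighted Kleitman-Winston bound for hard spheres in a box (finite version).
-/

set_option autoImplicit false
open MeasureTheory Finset

namespace Pool.Agent.J4.H90.NO

open Pool.Agent.K4H61.HS

lemma icw_scale {X : Type} (R : X → X → Prop) (w : X → ℝ) (c : ℝ) (U : Finset X) (k : ℕ) :
    icw R (fun u => c * w u) U k = c ^ k * icw R w U k := by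
  classical
  unfold icw
  rw [mul_sum]
  refine sum_congr rfl fun I hI => ?_
  rw [mem_filter, mem_powersetCard] at hI
  rw [prod_mul_distrib, prod_const, hI.1.2]

lemma cube_meas (d : ℕ) (L : ℝ) : MeasurableSet (cube d L) := by
  have : cube d L = Set.univ.pi fun _ => Set.Icc (0 : ℝ) L := by
    ext y; rw [Set.mem_univ_pi]; rfl
  rw [this]
  exact MeasurableSet.univ_pi fun _ => measurableSet_Icc

lemma cube_vol (d : ℕ) {L : ℝ} (hL : 0 ≤ L) : volume (cube d L) = ENNReal.ofReal (L ^ d) := by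
  have : cube d L = Set.univ.pi fun _ => Set.Icc (0 : ℝ) L := by
    ext y; rw [Set.mem_univ_pi]; rfl
  rw [this, Real.volume_pi_Icc_toReal_aux hL]
where
  Real.volume_pi_Icc_toReal_aux {d : ℕ} {L : ℝ} (hL : 0 ≤ L) :
      volume (Set.univ.pi fun _ : Fin d => Set.Icc (0 : ℝ) L) = ENNReal.ofReal (L ^ d) := by
    rw [volume_pi_pi]
    simp [Real.volume_Icc, ENNReal.ofReal_pow hL]

theorem core {d m N : ℕ} (hd : 1 ≤ d) (r L h T b κ G : ℝ) (hN : 1 ≤ N) (hh : 0 < h)
    (hm : L < m * h) (hm0 : 0 < m) (hr : 2 * (√d * h) < r) (hb : 0 < b)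
    (g : (Fin d → ℝ) → ℝ) (hg : Measurable g) (hg0 : ∀ x, 0 ≤ g x) (hgb : ∀ x, g x ≤ b)
    (hG : G = ∫ y in cube d L, g y) (hG0 : 0 < G)
    (hκ : κ = bv d (r - 2 * (√d * h)) / (m * h + 2 * (r - √d * h)) ^ d) (hκ1 : κ < 1)
    (hT : N * (κ / (1 - κ)) ≤ T) :
    ∫ x in config d r L N, ∏ i, g (x i) ≤
      G ^ N * Real.exp (N * (-(κ * (N - 1) / 2) +
        (h ^ d + bv d (r - 2 * (√d * h)) * eps d) * b / (κ * G) * Real.exp T)) := by
  classical
  have hdh : 0 ≤ √(d : ℝ) * h := by positivity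
  have hhd : 0 < h ^ d := by positivity
  set B := bv d (r - 2 * (√d * h)) with hB
  have hB0 : 0 < B := bv_pos d (by linarith)
  have heps := eps_pos d
  have hmr : (0 : ℝ) < m := by exact_mod_cast hm0
  have hκ0 : 0 < κ := by
    rw [hκ]
    have : 0 < m * h + 2 * (r - √d * h) := by
      have : 0 < (m : ℝ) * h := by positivity
      linarith
    positivity
  -- the restricted function
  set g0 : (Fin d → ℝ) → ℝ := (cube d L).indicator g with hg0'
  have hg0m : Measurable g0 := hg.indicator (cube_meas d L)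
  have hg00 : ∀ x, 0 ≤ g0 x := fun x => Set.indicator_nonneg (fun x _ => hg0 x) x
  have hg0b : ∀ x, g0 x ≤ b := fun x => by
    rw [hg0']
    by_cases hx : x ∈ cube d L
    · rw [Set.indicator_of_mem hx]; exact hgb x
    · rw [Set.indicator_of_notMem hx]; exact hb.le
  have hg0s : ∀ x, x ∉ cube d L → g0 x = 0 := fun x hx => Set.indicator_of_notMem hx _
  have e1 : ∫ x in config d r L N, ∏ i, g (x i) = ∫ x in config d r L N, ∏ i, g0 (x i) := by
    refine setIntegral_congr_fun₀ ?_ fun x hx => ?_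
    · have : MeasurableSet (config d r L N) := config_meas d r L N
      exact this.nullMeasurableSet
    · refine prod_congr rfl fun i _ => ?_
      rw [hg0', Set.indicator_of_mem]
      exact fun k => hx.1 i k
  set W : (Fin d → Fin m) → ℝ := fun c => ∫ y in cellF h c, g0 y with hW
  set w : (Fin d → Fin m) → ℝ := fun c => W c / (b * h ^ d) with hw
  have hbh : 0 < b * h ^ d := by positivity
  have hWw : W = fun c => (b * h ^ d) * w c := by
    funext c
    rw [hw]
    field_simp
  have hw0 : ∀ c, 0 ≤ w c := fun c =>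
    div_nonneg (int_cellF_le h hh c g0 hg0m hg00 b hg0b).1 hbh.le
  have hw1 : ∀ c, w c ≤ 1 := fun c => by
    rw [hw]
    dsimp only
    rw [div_le_one hbh]
    exact (int_cellF_le h hh c g0 hg0m hg00 b hg0b).2
  have hWs : ∑ c, W c = G := by
    rw [hW, sum_cellF L h hh hm g0 hg0m hg00 b hg0b hg0s, hG]
    refine setIntegral_congr_fun (cube_meas d L) fun x hx => ?_
    rw [hg0', Set.indicator_of_mem hx]
  set n : ℝ := G / (b * h ^ d) with hn
  have hn0 : 0 < n := by positivity
  have hws : n = ∑ c, w c := by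
    rw [hw, ← sum_div, hWs]
  set s := r - √d * h with hs
  have hs1 : √d * h < s := by linarith
  have hss : s - √d * h = r - 2 * (√d * h) := by rw [hs]; ring
  set sK : ℝ := B * eps d / h ^ d with hsK
  have hsK0 : 0 ≤ sK := by positivity
  have hKW : ∀ U : Finset (Fin d → Fin m), U.Nonempty → ∃ v ∈ U,
      (1 - (1 - κ)) * (∑ u ∈ U, w u) - sK ≤
        ∑ u ∈ U.filter (fun u => near h s v u), w u := by
    intro U hU
    obtain ⟨v, hv, h1⟩ := exists_large_w hd s h hh hs1 w hw0 hw1 U hU
    refine ⟨v, hv, le_trans (le_of_eq ?_) (le_trans h1 (le_of_eq ?_))⟩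
    · rw [hss, ← hB, hκ, hsK]
      ring
    · congr
  have hk := kww (near (d := d) (m := m) h s) (near_refl h s) w hw0 hw1 (1 - κ) sK (by linarith) hsK0
    (fun U hU => by
      obtain ⟨v, hv, h1⟩ := hKW U hU
      refine ⟨v, hv, h1.trans (le_of_eq ?_)⟩
      congr) N 0 univ
  simp only [mul_zero, add_zero] at hk
  have hq : 1 - (1 - κ) = κ := by ring
  have hf := fin_upper_w (near (d := d) (m := m) h s) w n hws hn0 (1 - κ) sK T N hN
    (by linarith) (by linarith) hsK0 hk (by rw [hq]; exact hT)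
  rw [hq] at hf
  have hc := config_int_le (m := m) r L h N hh hm (by linarith) g0 hg0m hg00 b hg0b
  rw [e1]
  refine hc.trans ?_
  change (N.factorial : ℝ) * icw (near (d := d) (m := m) h s) W univ N ≤ _
  rw [hWw, icw_scale]
  have h2 : (N.factorial : ℝ) * ((b * h ^ d) ^ N * icw (near (d := d) (m := m) h s) w univ N) =
      (b * h ^ d) ^ N * (icw (near (d := d) (m := m) h s) w univ N * (N.factorial : ℝ)) := by ring
  rw [h2]
  refine (mul_le_mul_of_nonneg_left hf (by positivity)).trans (le_of_eq ?_)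
  have h3 : (b * h ^ d) ^ N * n ^ N = G ^ N := by
    rw [← mul_pow, hn]
    congr 1
    field_simp
  rw [← mul_assoc, h3]
  congr 3
  congr 1
  congr 1
  rw [hsK, hn]
  field_simp
where
  config_meas (d : ℕ) (r L : ℝ) (N : ℕ) : MeasurableSet (config d r L N) := by
    have : config d r L N = (⋂ i, ⋂ k, {x : Fin N → Fin d → ℝ | x i k ∈ Set.Icc (0 : ℝ) L}) ∩
        ⋂ i, ⋂ j, ⋂ (_ : i ≠ j), {x | r ^ 2 ≤ ∑ k, (x i k - x j k) ^ 2} := by
      ext x
      simp [config, Set.mem_iInter]
    rw [this]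
    refine MeasurableSet.inter ?_ ?_
    · refine MeasurableSet.iInter fun i => MeasurableSet.iInter fun k => ?_
      exact measurableSet_Icc.preimage (by fun_prop)
    · refine MeasurableSet.iInter fun i => MeasurableSet.iInter fun j => MeasurableSet.iInter fun _ => ?_
      exact measurableSet_le measurable_const (by fun_prop)

end Pool.Agent.J4.H90.NO
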