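import Pool.Agent.K4H61.HS.Main

/-!
Hard spheres in high dimension: no positional order (project NO). Definitions.
-/

set_option autoImplicit false
open MeasureTheory Finset

namespace Pool.Agent.J4.H90.NO

open Pool.Agent.K4H61.HS

open Classical in
/-- weighted number of the independent subsets of `U` with `k` elements -/
noncomputable def icw {X : Type} (R : X → X → Prop) (w : X → ℝ) (U : Finset X) (k : ℕ) : ℝ :=
  ∑ I ∈ (U.powersetCard k).filter (Ind R), ∏ u ∈ I, w u

/-- the cell `c h + [0,h)^d` in `ℝ^d` -/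
def cellF {d m : ℕ} (h : ℝ) (c : Fin d → Fin m) : Set (Fin d → ℝ) :=
  {y | ∀ k, ((c k : ℕ) : ℝ) * h ≤ y k ∧ y k < (((c k : ℕ) : ℝ) + 1) * h}

/-- the cube `[0,L]^d` -/
def cube (d : ℕ) (L : ℝ) : Set (Fin d → ℝ) := {y | ∀ k, y k ∈ Set.Icc (0 : ℝ) L}

/-- the mean of a function over the cube -/
noncomputable def avg (d : ℕ) (L : ℝ) (φ : (Fin d → ℝ) → ℝ) : ℝ := (∫ y in cube d L, φ y) / L ^ d

end Pool.Agent.J4.H90.NO
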