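import Pool.Agent.J4.H90.NO.Defs

/-!
# Hoeffding's lemma on the cube, and the Chernoff bound for a finite family of functions
-/

set_option autoImplicit false
open MeasureTheory Finset

namespace Pool.Agent.J4.H90.NO

namespace Hoe

lemma cube_eq (d : ℕ) (L : ℝ) : cube d L = Set.univ.pi fun _ : Fin d => Set.Icc (0 : ℝ) L := by
  ext y
  rw [Set.mem_univ_pi]
  rfl

lemma cube_vol (d : ℕ) (L : ℝ) (hL : 0 < L) : volume (cube d L) = ENNReal.ofReal (L ^ d) := by
  rw [cube_eq, volume_pi_pi]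
  simp only [Real.volume_Icc, sub_zero, Finset.prod_const, Finset.card_univ, Fintype.card_fin]
  rw [ENNReal.ofReal_pow hL.le]

/-- the normalised Lebesgue measure on the cube -/
noncomputable def mu (d : ℕ) (L : ℝ) : Measure (Fin d → ℝ) :=
  (ENNReal.ofReal (L ^ d))⁻¹ • volume.restrict (cube d L)

lemma mu_prob (d : ℕ) (L : ℝ) (hL : 0 < L) : IsProbabilityMeasure (mu d L) := by
  constructor
  unfold mu
  rw [Measure.smul_apply, Measure.restrict_apply_univ, cube_vol d L hL, smul_eq_mul]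
  apply ENNReal.inv_mul_cancel
  · rw [ne_eq, ENNReal.ofReal_eq_zero, not_le]
    positivity
  · exact ENNReal.ofReal_ne_top

lemma mu_int (d : ℕ) (L : ℝ) (hL : 0 < L) (φ : (Fin d → ℝ) → ℝ) : ∫ y, φ y ∂(mu d L) = avg d L φ := by
  unfold mu avg
  rw [integral_smul_measure, ENNReal.toReal_inv, ENNReal.toReal_ofReal (by positivity), smul_eq_mul,
    div_eq_inv_mul]

end Hoe

open Hoe

theorem hoeffding {d : ℕ} (L : ℝ) (hL : 0 < L) (φ : (Fin d → ℝ) → ℝ) (hφ : Measurable φ)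
    (hb : ∀ x, |φ x| ≤ 1) (t : ℝ) :
    avg d L (fun x => Real.exp (t * φ x)) ≤ Real.exp (t * avg d L φ + t ^ 2 / 2) := by
  have := mu_prob d L hL
  have h1 := ProbabilityTheory.hasSubgaussianMGF_of_mem_Icc (μ := mu d L) (X := φ) (a := -1) (b := 1)
    hφ.aemeasurable (Filter.Eventually.of_forall fun x => abs_le.1 (hb x))
  have h2 := h1.mgf_le t
  have hc : (((‖(1 : ℝ) - (-1)‖₊ / 2) ^ 2 : NNReal) : ℝ) = 1 := by
    push_cast
    norm_num
  rw [hc, one_mul] at h2
  unfold ProbabilityTheory.mgf at h2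
  rw [mu_int d L hL, mu_int d L hL] at h2
  have h3 : avg d L (fun x => Real.exp (t * (φ x - avg d L φ))) =
      Real.exp (-(t * avg d L φ)) * avg d L (fun x => Real.exp (t * φ x)) := by
    have h4 : ∀ x, Real.exp (t * (φ x - avg d L φ)) =
        Real.exp (-(t * avg d L φ)) * Real.exp (t * φ x) := by
      intro x
      rw [← Real.exp_add]
      congr 1
      ring
    simp only [h4]
    generalize avg d L φ = A
    unfold avg
    rw [integral_const_mul, mul_div_assoc]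
  rw [h3] at h2
  calc avg d L (fun x => Real.exp (t * φ x)) =
      Real.exp (t * avg d L φ) * (Real.exp (-(t * avg d L φ)) * avg d L (fun x => Real.exp (t * φ x))) := by
        rw [← mul_assoc, ← Real.exp_add, add_neg_cancel, Real.exp_zero, one_mul]
    _ ≤ Real.exp (t * avg d L φ) * Real.exp (t ^ 2 / 2) :=
        mul_le_mul_of_nonneg_left h2 (Real.exp_pos _).le
    _ = _ := by rw [← Real.exp_add]

namespace Hoe

/-- one side of the Chernoff bound, `t = δ` or `t = -δ` -/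
lemma side {d N : ℕ} (L : ℝ) (hL : 0 < L) (C : Set (Fin N → Fin d → ℝ))
    (hC0 : 0 < (volume C).toReal) (κ : ℝ) (φ : (Fin d → ℝ) → ℝ) (hφ : Measurable φ)
    (hb : ∀ x, |φ x| ≤ 1) (t δ : ℝ)
    (hmgf : ∫ x in C, ∏ i, Real.exp (t * φ (x i)) ≤
        (volume C).toReal * avg d L (fun y => Real.exp (t * φ y)) ^ N * Real.exp (N * κ))
    (ht : t ^ 2 = δ ^ 2) :
    (volume {x | x ∈ C ∧ δ ^ 2 * N ≤ t * (∑ i, φ (x i) - N * avg d L φ)}).toReal ≤
      (volume C).toReal * Real.exp (-(N * (δ ^ 2 / 2 - κ))) := by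
  have hCf : volume C ≠ ⊤ := by
    intro h
    rw [h] at hC0
    simp at hC0
  have : IsFiniteMeasure (volume.restrict C) := ⟨by
    rw [Measure.restrict_apply_univ]
    exact lt_top_iff_ne_top.2 hCf⟩
  set f : (Fin N → Fin d → ℝ) → ℝ := fun x => ∏ i, Real.exp (t * φ (x i)) with hf
  have hfm : Measurable f := by
    apply Finset.measurable_prod
    intro i _
    exact (((hφ.comp (measurable_pi_apply i)).const_mul t).exp)
  have hfb : ∀ x, ‖f x‖ ≤ Real.exp |t| ^ N := by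
    intro x
    rw [hf, Real.norm_eq_abs, Finset.abs_prod]
    calc ∏ i, |Real.exp (t * φ (x i))| ≤ ∏ _i : Fin N, Real.exp |t| := by
          apply Finset.prod_le_prod
          · intro i _
            exact abs_nonneg _
          · intro i _
            rw [abs_of_pos (Real.exp_pos _)]
            apply Real.exp_le_exp.2
            calc t * φ (x i) ≤ |t * φ (x i)| := le_abs_self _
              _ = |t| * |φ (x i)| := abs_mul _ _
              _ ≤ |t| * 1 := mul_le_mul_of_nonneg_left (hb _) (abs_nonneg _)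
              _ = |t| := mul_one _
      _ = _ := by
          rw [Finset.prod_const, Finset.card_univ, Fintype.card_fin]
  have hfi : Integrable f (volume.restrict C) :=
    Integrable.of_bound hfm.aestronglyMeasurable _ (Filter.Eventually.of_forall hfb)
  have hf0 : 0 ≤ᵐ[volume.restrict C] f := Filter.Eventually.of_forall fun x =>
    Finset.prod_nonneg fun i _ => (Real.exp_pos _).le
  set ε : ℝ := Real.exp (t * (N * avg d L φ) + δ ^ 2 * N) with hε
  have hm := mul_meas_ge_le_integral_of_nonneg hf0 hfi ε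
  have hset : {x | x ∈ C ∧ δ ^ 2 * N ≤ t * (∑ i, φ (x i) - N * avg d L φ)} ⊆
      {x | ε ≤ f x} ∩ C := by
    rintro x ⟨hxC, hx⟩
    refine ⟨?_, hxC⟩
    change ε ≤ ∏ i, Real.exp (t * φ (x i))
    rw [hε, ← Real.exp_sum]
    apply Real.exp_le_exp.2
    rw [← Finset.mul_sum]
    linarith
  have hmeas : MeasurableSet {x | ε ≤ f x} := measurableSet_le measurable_const hfm
  have h1 : (volume {x | x ∈ C ∧ δ ^ 2 * N ≤ t * (∑ i, φ (x i) - N * avg d L φ)}).toReal ≤
      (volume.restrict C).real {x | ε ≤ f x} := by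
    unfold Measure.real
    rw [Measure.restrict_apply hmeas]
    apply ENNReal.toReal_mono
    · exact ne_top_of_le_ne_top hCf (measure_mono Set.inter_subset_right)
    · exact measure_mono hset
  have hho := hoeffding L hL φ hφ hb t
  have h0 : 0 ≤ avg d L (fun y => Real.exp (t * φ y)) := by
    unfold avg
    apply div_nonneg
    · exact integral_nonneg fun x => (Real.exp_pos _).le
    · positivity
  have h2 : (volume C).toReal * avg d L (fun y => Real.exp (t * φ y)) ^ N * Real.exp (N * κ) ≤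
      (volume C).toReal * Real.exp (-(N * (δ ^ 2 / 2 - κ))) * ε := by
    calc (volume C).toReal * avg d L (fun y => Real.exp (t * φ y)) ^ N * Real.exp (N * κ) ≤
        (volume C).toReal * Real.exp (t * avg d L φ + t ^ 2 / 2) ^ N * Real.exp (N * κ) := by
          apply mul_le_mul_of_nonneg_right _ (Real.exp_pos _).le
          apply mul_le_mul_of_nonneg_left _ hC0.le
          exact pow_le_pow_left₀ h0 hho N
      _ = _ := by
          rw [← Real.exp_nat_mul, mul_assoc, mul_assoc, ← Real.exp_add, hε, ← Real.exp_add, ht]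
          congr 2
          ring
  have h3 : ε * (volume.restrict C).real {x | ε ≤ f x} ≤
      (volume C).toReal * Real.exp (-(N * (δ ^ 2 / 2 - κ))) * ε := hm.trans (hmgf.trans h2)
  have hεp : 0 < ε := Real.exp_pos _
  have h4 : (volume.restrict C).real {x | ε ≤ f x} ≤
      (volume C).toReal * Real.exp (-(N * (δ ^ 2 / 2 - κ))) := by
    by_contra hcon
    push Not at hcon
    have := mul_lt_mul_of_pos_left hcon hεp
    linarith
  exact h1.trans h4

end Hoe

theorem chernoff {d N : ℕ} (L : ℝ) (hL : 0 < L) (C : Set (Fin N → Fin d → ℝ)) (hC : MeasurableSet C)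
    (hC0 : 0 < (volume C).toReal) (κ M : ℝ) (hM : 1 ≤ M)
    (hmgf : ∀ φ : (Fin d → ℝ) → ℝ, Measurable φ → (∀ x, |φ x| ≤ M) →
      ∫ x in C, ∏ i, Real.exp (φ (x i)) ≤
        (volume C).toReal * avg d L (fun y => Real.exp (φ y)) ^ N * Real.exp (N * κ))
    (δ : ℝ) (hδ : 0 < δ) (hδ1 : δ ≤ 1) (Φ : Finset ((Fin d → ℝ) → ℝ))
    (hΦ : ∀ φ ∈ Φ, Measurable φ ∧ ∀ x, |φ x| ≤ 1) :
    (volume {x | x ∈ C ∧ ∃ φ ∈ Φ, δ * N ≤ |∑ i, φ (x i) - N * avg d L φ|}).toReal ≤
      (volume C).toReal * (2 * Φ.card * Real.exp (-(N * (δ ^ 2 / 2 - κ)))) := by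
  classical
  have hCf : volume C ≠ ⊤ := by
    intro h
    rw [h] at hC0
    simp at hC0
  have hsd : ∀ φ ∈ Φ, ∀ t : ℝ, |t| = δ →
      volume.real {x | x ∈ C ∧ δ ^ 2 * N ≤ t * (∑ i, φ (x i) - N * avg d L φ)} ≤
      (volume C).toReal * Real.exp (-(N * (δ ^ 2 / 2 - κ))) := by
    intro φ hφ t ht
    apply side L hL C hC0 κ φ (hΦ φ hφ).1 (hΦ φ hφ).2 t δ
    · apply hmgf (fun y => t * φ y)
      · exact (hΦ φ hφ).1.const_mul t
      · intro x
        rw [abs_mul, ht]
        calc δ * |φ x| ≤ δ * 1 := mul_le_mul_of_nonneg_left ((hΦ φ hφ).2 x) hδ.le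
          _ ≤ M := by linarith
    · rw [← ht, sq_abs]
  have hsub : {x | x ∈ C ∧ ∃ φ ∈ Φ, δ * N ≤ |∑ i, φ (x i) - N * avg d L φ|} ⊆
      ⋃ φ ∈ Φ, ({x | x ∈ C ∧ δ ^ 2 * N ≤ δ * (∑ i, φ (x i) - N * avg d L φ)} ∪
        {x | x ∈ C ∧ δ ^ 2 * N ≤ (-δ) * (∑ i, φ (x i) - N * avg d L φ)}) := by
    rintro x ⟨hxC, φ, hφ, hx⟩
    rw [Set.mem_iUnion₂]
    refine ⟨φ, hφ, ?_⟩
    rcases le_abs.1 hx with h | h
    · left
      refine ⟨hxC, ?_⟩
      have := mul_le_mul_of_nonneg_left h hδ.le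
      calc δ ^ 2 * N = δ * (δ * N) := by ring
        _ ≤ _ := this
    · right
      refine ⟨hxC, ?_⟩
      have := mul_le_mul_of_nonneg_left h hδ.le
      calc δ ^ 2 * N = δ * (δ * N) := by ring
        _ ≤ _ := this
        _ = _ := by ring
  have hfin : volume (⋃ φ ∈ Φ, ({x | x ∈ C ∧ δ ^ 2 * N ≤ δ * (∑ i, φ (x i) - N * avg d L φ)} ∪
        {x | x ∈ C ∧ δ ^ 2 * N ≤ (-δ) * (∑ i, φ (x i) - N * avg d L φ)})) ≠ ⊤ := by
    apply ne_top_of_le_ne_top hCf
    apply measure_mono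
    apply Set.iUnion₂_subset
    intro φ _
    apply Set.union_subset
    · exact fun x hx => hx.1
    · exact fun x hx => hx.1
  calc (volume {x | x ∈ C ∧ ∃ φ ∈ Φ, δ * N ≤ |∑ i, φ (x i) - N * avg d L φ|}).toReal ≤
      volume.real (⋃ φ ∈ Φ, ({x | x ∈ C ∧ δ ^ 2 * N ≤ δ * (∑ i, φ (x i) - N * avg d L φ)} ∪
        {x | x ∈ C ∧ δ ^ 2 * N ≤ (-δ) * (∑ i, φ (x i) - N * avg d L φ)})) :=
        measureReal_mono hsub hfin
    _ ≤ ∑ φ ∈ Φ, volume.real ({x | x ∈ C ∧ δ ^ 2 * N ≤ δ * (∑ i, φ (x i) - N * avg d L φ)} ∪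
        {x | x ∈ C ∧ δ ^ 2 * N ≤ (-δ) * (∑ i, φ (x i) - N * avg d L φ)}) :=
        measureReal_biUnion_finset_le _ _
    _ ≤ ∑ φ ∈ Φ, (2 * ((volume C).toReal * Real.exp (-(N * (δ ^ 2 / 2 - κ))))) := by
        apply Finset.sum_le_sum
        intro φ hφ
        have h1 := hsd φ hφ δ (abs_of_pos hδ)
        have h2 := hsd φ hφ (-δ) (by rw [abs_neg, abs_of_pos hδ])
        have h3 := measureReal_union_le (μ := volume)
          {x : Fin N → Fin d → ℝ | x ∈ C ∧ δ ^ 2 * N ≤ δ * (∑ i, φ (x i) - N * avg d L φ)}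
          {x | x ∈ C ∧ δ ^ 2 * N ≤ (-δ) * (∑ i, φ (x i) - N * avg d L φ)}
        linarith
    _ = _ := by
        rw [Finset.sum_const, nsmul_eq_mul]
        ring

end Pool.Agent.J4.H90.NO
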