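import Pool.Agent.J4.H90.NO.Defs

/-!
Local modes: Bragg peaks in all cells at the same time (project NO, piece LMOD, by helper10).
-/

set_option autoImplicit false
open MeasureTheory Finset

namespace Pool.Agent.J4.H90.NO

open Pool.Agent.K4H61.HS

/-- the character `exp(i ξ.(y - cR))` on the cell `c R + [0,R)^d`, zero outside the cell -/
noncomputable def chi {d n : ℕ} (R : ℝ) (c : Fin d → Fin n) (ξ : Fin d → ℝ) : (Fin d → ℝ) → ℂ :=
  (cellF R c).indicator fun y => Complex.exp (Complex.I * ((∑ k, ξ k * (y k - ((c k : ℕ) : ℝ) * R) : ℝ) : ℂ))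

namespace LM

variable {d n : ℕ}

theorem cell_meas (R : ℝ) (c : Fin d → Fin n) : MeasurableSet (cellF R c) := by
  have h : cellF R c = Set.pi Set.univ
      (fun k => Set.Ico (((c k : ℕ) : ℝ) * R) ((((c k : ℕ) : ℝ) + 1) * R)) := by
    ext y
    simp [cellF, Set.mem_pi]
  rw [h]
  exact MeasurableSet.univ_pi fun k => measurableSet_Ico

theorem cell_unique {R : ℝ} (hR : 0 < R) {c c' : Fin d → Fin n} {y : Fin d → ℝ}
    (h : y ∈ cellF R c) (h' : y ∈ cellF R c') : c = c' := by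
  funext k
  obtain ⟨h1, h2⟩ := h k
  obtain ⟨h3, h4⟩ := h' k
  have a1 : ((c k : ℕ) : ℝ) < (c' k : ℕ) + 1 := lt_of_mul_lt_mul_right (h1.trans_lt h4) hR.le
  have a2 : ((c' k : ℕ) : ℝ) < (c k : ℕ) + 1 := lt_of_mul_lt_mul_right (h3.trans_lt h2) hR.le
  have b1 : (c k : ℕ) < (c' k : ℕ) + 1 := by exact_mod_cast a1
  have b2 : (c' k : ℕ) < (c k : ℕ) + 1 := by exact_mod_cast a2
  exact Fin.ext (by omega)

theorem sum_ind_le {R : ℝ} (hR : 0 < R) (f : (Fin d → Fin n) → (Fin d → ℝ) → ℝ) (B : ℝ)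
    (hB : 0 ≤ B) (hf : ∀ c y, f c y ≤ B) (hf0 : ∀ c y, y ∉ cellF R c → f c y = 0)
    (y : Fin d → ℝ) : ∑ c, f c y ≤ B := by
  by_cases h : ∃ c : Fin d → Fin n, y ∈ cellF R c
  · obtain ⟨c, hc⟩ := h
    rw [Finset.sum_eq_single c]
    · exact hf c y
    · intro c' _ hne
      exact hf0 c' y fun h' => hne (cell_unique hR h' hc)
    · simp
  · push Not at h
    rw [Finset.sum_eq_zero fun c _ => hf0 c y (h c)]
    exact hB

theorem chi_meas (R : ℝ) (c : Fin d → Fin n) (ξ : Fin d → ℝ) : Measurable (chi R c ξ) := by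
  unfold chi
  apply Measurable.indicator _ (cell_meas R c)
  apply Continuous.measurable
  fun_prop

theorem chi_zero {R : ℝ} {c : Fin d → Fin n} {ξ y : Fin d → ℝ} (h : y ∉ cellF R c) :
    chi R c ξ y = 0 := Set.indicator_of_notMem h _

theorem chi_norm (R : ℝ) (c : Fin d → Fin n) (ξ y : Fin d → ℝ) : ‖chi R c ξ y‖ ≤ 1 := by
  by_cases h : y ∈ cellF R c
  · rw [chi, Set.indicator_of_mem h, Complex.norm_exp_I_mul_ofReal]
  · rw [chi_zero h, norm_zero]
    exact zero_le_one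

/-- the characters for close frequencies are close -/
theorem chi_sub {R τ : ℝ} (hR : 0 < R) (hτ : 0 ≤ τ) {c : Fin d → Fin n} {ξ ξ' : Fin d → ℝ}
    (h : ∀ k, |ξ k - ξ' k| ≤ τ) (y : Fin d → ℝ) :
    ‖chi R c ξ y - chi R c ξ' y‖ ≤ (cellF R c).indicator (fun _ => d * (τ * R)) y := by
  by_cases hy : y ∈ cellF R c
  · rw [Set.indicator_of_mem hy]
    unfold chi
    rw [Set.indicator_of_mem hy, Set.indicator_of_mem hy]
    set a : ℝ := ∑ k, ξ k * (y k - ((c k : ℕ) : ℝ) * R) with ha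
    set b : ℝ := ∑ k, ξ' k * (y k - ((c k : ℕ) : ℝ) * R) with hb
    have h1 : Complex.exp (Complex.I * (a : ℂ)) - Complex.exp (Complex.I * (b : ℂ)) =
        Complex.exp (Complex.I * (b : ℂ)) * (Complex.exp (Complex.I * ((a - b : ℝ) : ℂ)) - 1) := by
      rw [mul_sub, mul_one, ← Complex.exp_add]
      congr 2
      push_cast
      ring
    rw [h1, norm_mul, Complex.norm_exp_I_mul_ofReal, one_mul]
    refine (Real.norm_exp_I_mul_ofReal_sub_one_le).trans ?_
    rw [Real.norm_eq_abs, ha, hb, ← Finset.sum_sub_distrib]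
    refine (Finset.abs_sum_le_sum_abs _ _).trans ?_
    have h2 : ∀ k ∈ (univ : Finset (Fin d)), |ξ k * (y k - ((c k : ℕ) : ℝ) * R) -
        ξ' k * (y k - ((c k : ℕ) : ℝ) * R)| ≤ τ * R := by
      intro k _
      rw [← sub_mul, abs_mul]
      have h3 := hy k
      refine mul_le_mul (h k) ?_ (abs_nonneg _) hτ
      rw [abs_of_nonneg (by linarith [h3.1])]
      linarith [h3.2]
    refine (Finset.sum_le_sum h2).trans ?_
    simp
  · rw [Set.indicator_of_notMem hy, chi_zero hy, chi_zero hy, sub_zero, norm_zero]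

theorem cube_eq (d : ℕ) (L : ℝ) : cube d L = Set.Icc (fun _ : Fin d => (0 : ℝ)) (fun _ => L) := by
  ext y
  simp only [cube, Set.mem_ofPred_eq, Set.mem_Icc, Pi.le_def]
  exact forall_and

theorem vol_cube (d : ℕ) {L : ℝ} (hL : 0 < L) : (volume (cube d L)).toReal = L ^ d := by
  rw [cube_eq, Real.volume_Icc_pi_toReal (fun _ => hL.le)]
  simp

theorem vol_cube_ne (d : ℕ) (L : ℝ) : volume (cube d L) < ⊤ := by
  rw [cube_eq]
  exact isCompact_Icc.measure_lt_top

theorem intOn (d : ℕ) (L : ℝ) {E : Type} [NormedAddCommGroup E] {f : (Fin d → ℝ) → E}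
    (hf : AEStronglyMeasurable f volume) {M : ℝ} (hM : ∀ y, ‖f y‖ ≤ M) :
    IntegrableOn f (cube d L) :=
  Measure.integrableOn_of_bounded (vol_cube_ne d L).ne hf (M := M) (ae_of_all _ hM)

/-- the combination of the characters with signs -/
noncomputable def F (R : ℝ) (ξ : (Fin d → Fin n) → Fin d → ℝ) (b : (Fin d → Fin n) → Bool)
    (y : Fin d → ℝ) : ℂ :=
  ∑ c, ((if b c then 1 else -1 : ℝ) : ℂ) * chi R c (ξ c) y

theorem F_meas (R : ℝ) (ξ : (Fin d → Fin n) → Fin d → ℝ) (b : (Fin d → Fin n) → Bool) :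
    Measurable (F R ξ b) := by
  unfold F
  apply Finset.measurable_fun_sum
  intro c _
  exact (chi_meas R c (ξ c)).const_mul _

theorem sgn_norm (t : Bool) : ‖((if t then 1 else -1 : ℝ) : ℂ)‖ = 1 := by
  cases t <;> simp

theorem F_norm {R : ℝ} (hR : 0 < R) (ξ : (Fin d → Fin n) → Fin d → ℝ)
    (b : (Fin d → Fin n) → Bool) (y : Fin d → ℝ) : ‖F R ξ b y‖ ≤ 1 := by
  refine (norm_sum_le _ _).trans ?_
  refine sum_ind_le hR (fun c y => ‖((if b c then 1 else -1 : ℝ) : ℂ) * chi R c (ξ c) y‖) 1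
    zero_le_one ?_ ?_ y
  · intro c y
    rw [norm_mul, sgn_norm, one_mul]
    exact chi_norm _ _ _ _
  · intro c y hy
    rw [chi_zero hy, mul_zero, norm_zero]

/-- the deviation of the empirical sum from the mean -/
noncomputable def S {N : ℕ} (L : ℝ) (x : Fin N → Fin d → ℝ) (f : (Fin d → ℝ) → ℂ) : ℂ :=
  ∑ i, f (x i) - N * ((∫ y in cube d L, f y) / (L : ℂ) ^ d)

theorem S_F {N : ℕ} (L : ℝ) (R : ℝ) (x : Fin N → Fin d → ℝ)
    (ξ : (Fin d → Fin n) → Fin d → ℝ) (b : (Fin d → Fin n) → Bool) :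
    S L x (F R ξ b) = ∑ c, ((if b c then 1 else -1 : ℝ) : ℂ) * S L x (chi R c (ξ c)) := by
  unfold S F
  rw [integral_finsetSum]
  · rw [Finset.sum_comm, Finset.sum_div, Finset.mul_sum, ← Finset.sum_sub_distrib]
    refine Finset.sum_congr rfl fun c _ => ?_
    rw [integral_const_mul, ← Finset.mul_sum]
    ring
  · intro c _
    exact (intOn d L (chi_meas R c (ξ c)).aestronglyMeasurable
      (chi_norm R c (ξ c))).const_mul _

theorem S_re {N : ℕ} (L : ℝ) (x : Fin N → Fin d → ℝ) {f : (Fin d → ℝ) → ℂ}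
    (hf : IntegrableOn f (cube d L)) :
    (S L x f).re = ∑ i, (f (x i)).re - N * avg d L (fun y => (f y).re) := by
  unfold S avg
  rw [Complex.sub_re, Complex.re_sum]
  congr 1
  have h1 : ((N : ℂ) * ((∫ y in cube d L, f y) / (L : ℂ) ^ d)) =
      ((N / L ^ d : ℝ) : ℂ) * ∫ y in cube d L, f y := by
    push_cast
    ring
  rw [h1, Complex.re_ofReal_mul]
  have h2 : (∫ y in cube d L, f y).re = ∫ y in cube d L, (f y).re :=
    (integral_re hf).symm
  rw [h2]
  ring

theorem S_im {N : ℕ} (L : ℝ) (x : Fin N → Fin d → ℝ) {f : (Fin d → ℝ) → ℂ}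
    (hf : IntegrableOn f (cube d L)) :
    (S L x f).im = ∑ i, (f (x i)).im - N * avg d L (fun y => (f y).im) := by
  unfold S avg
  rw [Complex.sub_im, Complex.im_sum]
  congr 1
  have h1 : ((N : ℂ) * ((∫ y in cube d L, f y) / (L : ℂ) ^ d)) =
      ((N / L ^ d : ℝ) : ℂ) * ∫ y in cube d L, f y := by
    push_cast
    ring
  rw [h1, Complex.im_ofReal_mul]
  have h2 : (∫ y in cube d L, f y).im = ∫ y in cube d L, (f y).im :=
    (integral_im hf).symm
  rw [h2]
  ring

/-- rounding of the frequencies -/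
theorem S_round {N : ℕ} {L R τ δ : ℝ} (hL : 0 < L) (hR : 0 < R) (hτ : 0 ≤ τ) (hδ : 0 ≤ δ)
    (hδτ : d * (τ * R) ≤ δ)
    (x : Fin N → Fin d → ℝ) (ξ ξ' : (Fin d → Fin n) → Fin d → ℝ)
    (h : ∀ c k, |ξ c k - ξ' c k| ≤ τ) :
    ∑ c, ‖S L x (chi R c (ξ c)) - S L x (chi R c (ξ' c))‖ ≤ 2 * (δ * N) := by
  set I : (Fin d → Fin n) → (Fin d → ℝ) → ℝ := fun c => (cellF R c).indicator fun _ => δ with hI
  have hI0 : ∀ c y, 0 ≤ I c y := fun c y => Set.indicator_nonneg (fun _ _ => hδ) _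
  have hI1 : ∀ c y, I c y ≤ δ := fun c y => Set.indicator_le_self' (fun _ _ => hδ) y
  have hIn : ∀ c y, ‖I c y‖ ≤ δ := fun c y => by
    rw [Real.norm_eq_abs, abs_of_nonneg (hI0 c y)]
    exact hI1 c y
  have hIm : ∀ c, Measurable (I c) := fun c => measurable_const.indicator (cell_meas R c)
  have hIs : ∀ y, ∑ c, I c y ≤ δ := fun y => sum_ind_le hR I δ hδ hI1
    (fun c y hy => Set.indicator_of_notMem hy _) y
  have hD : ∀ c y, ‖chi R c (ξ c) y - chi R c (ξ' c) y‖ ≤ I c y := by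
    intro c y
    refine (chi_sub hR hτ (h c) y).trans ?_
    exact Set.indicator_le_indicator hδτ
  have h1 : ∀ c, ‖S L x (chi R c (ξ c)) - S L x (chi R c (ξ' c))‖ ≤
      ∑ i, I c (x i) + N / L ^ d * ∫ y in cube d L, I c y := by
    intro c
    have i1 := intOn d L (chi_meas R c (ξ c)).aestronglyMeasurable (chi_norm R c (ξ c))
    have i2 := intOn d L (chi_meas R c (ξ' c)).aestronglyMeasurable (chi_norm R c (ξ' c))
    have h2 : S L x (chi R c (ξ c)) - S L x (chi R c (ξ' c)) =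
        ∑ i, (chi R c (ξ c) (x i) - chi R c (ξ' c) (x i)) -
          ((N / L ^ d : ℝ) : ℂ) * ∫ y in cube d L, (chi R c (ξ c) y - chi R c (ξ' c) y) := by
      unfold S
      rw [integral_sub i1 i2, Finset.sum_sub_distrib]
      push_cast
      ring
    rw [h2]
    refine (norm_sub_le _ _).trans (add_le_add ?_ ?_)
    · refine (norm_sum_le _ _).trans (Finset.sum_le_sum fun i _ => hD c (x i))
    · rw [norm_mul, Complex.norm_real, Real.norm_eq_abs, abs_of_nonneg (by positivity)]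
      refine mul_le_mul_of_nonneg_left ?_ (by positivity)
      refine (norm_integral_le_integral_norm _).trans ?_
      refine integral_mono_of_nonneg (ae_of_all _ fun y => norm_nonneg _)
        (intOn d L (hIm c).aestronglyMeasurable (hIn c)) (ae_of_all _ fun y => hD c y)
  refine (Finset.sum_le_sum fun c _ => h1 c).trans ?_
  rw [Finset.sum_add_distrib, Finset.sum_comm, ← Finset.mul_sum, ← integral_finsetSum]
  · have h3 : ∑ i, ∑ c, I c (x i) ≤ δ * N := by
      refine (Finset.sum_le_sum fun i _ => hIs (x i)).trans ?_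
      simp [mul_comm]
    have h4 : ∫ y in cube d L, ∑ c, I c y ≤ δ * L ^ d := by
      have h5 : ∫ y in cube d L, ∑ c, I c y ≤ ∫ y in cube d L, δ := by
        refine integral_mono_of_nonneg (ae_of_all _ fun y => Finset.sum_nonneg fun c _ => hI0 c y)
          ?_ (ae_of_all _ fun y => hIs y)
        exact intOn d L aestronglyMeasurable_const (M := ‖δ‖) fun _ => le_rfl
      refine h5.trans (le_of_eq ?_)
      rw [setIntegral_const, smul_eq_mul, Measure.real, vol_cube d hL, mul_comm]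
    have h6 : (N : ℝ) / L ^ d * ∫ y in cube d L, ∑ c, I c y ≤ δ * N := by
      refine (mul_le_mul_of_nonneg_left h4 (by positivity)).trans (le_of_eq ?_)
      have : L ^ d ≠ 0 := (pow_pos hL d).ne'
      field_simp
    linarith
  · intro c _
    exact intOn d L (hIm c).aestronglyMeasurable (hIn c)

/-- the grid -/
noncomputable def gr (τ : ℝ) (M : ℕ) (j : Fin (2 * M + 2)) : ℝ := ((j : ℕ) - (M + 1 : ℝ)) * τ

theorem exists_gr {τ K : ℝ} (hτ : 0 < τ) (hK : 0 < K) {t : ℝ} (ht : |t| ≤ K) :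
    ∃ j : Fin (2 * ⌊K / τ⌋₊ + 2), |t - gr τ ⌊K / τ⌋₊ j| ≤ τ := by
  set M := ⌊K / τ⌋₊ with hM
  have h0 : K / τ < M + 1 := Nat.lt_floor_add_one _
  have hKM : K < (M + 1) * τ := (div_lt_iff₀ hτ).1 h0
  have h1 := abs_le.1 ht
  have h2 : -((M : ℤ) + 1) ≤ ⌊t / τ⌋ := by
    rw [Int.le_floor]
    push_cast
    rw [le_div_iff₀ hτ]
    linarith
  have h3 : ⌊t / τ⌋ ≤ M := by
    have h4 : (⌊t / τ⌋ : ℝ) < M + 1 := by
      refine (Int.floor_le _).trans_lt ?_
      rw [div_lt_iff₀ hτ]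
      linarith
    have h5 : ⌊t / τ⌋ < (M : ℤ) + 1 := by exact_mod_cast h4
    omega
  have h4 : (⌊t / τ⌋ + (M + 1)).toNat < 2 * M + 2 := by omega
  refine ⟨⟨(⌊t / τ⌋ + (M + 1)).toNat, h4⟩, ?_⟩
  have h5 : (((⌊t / τ⌋ + (M + 1)).toNat : ℕ) : ℝ) = (⌊t / τ⌋ : ℝ) + (M + 1) := by
    have h6 : (((⌊t / τ⌋ + (M + 1)).toNat : ℕ) : ℤ) = ⌊t / τ⌋ + (M + 1) :=
      Int.toNat_of_nonneg (by omega)
    exact_mod_cast congrArg (fun z : ℤ => (z : ℝ)) h6
  unfold gr
  simp only
  rw [h5, add_sub_cancel_right]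
  have h7 := Int.floor_le (t / τ)
  have h8 := Int.lt_floor_add_one (t / τ)
  rw [le_div_iff₀ hτ] at h7
  rw [div_lt_iff₀ hτ] at h8
  rw [abs_le]
  constructor <;> nlinarith

end LM

open LM

open Classical in
theorem local_modes {d N n : ℕ} (hd : 1 ≤ d) (hN : 1 ≤ N) (L R : ℝ) (hL : 0 < L) (hR : 0 < R) (hn : L < n * R)
    (C : Set (Fin N → Fin d → ℝ)) (hCv : volume C < ⊤) (hCL : ∀ x ∈ C, ∀ i, x i ∈ cube d L)
    (δ κ : ℝ) (hδ : 0 < δ) (hδ1 : δ ≤ 1)
    (hfam : ∀ Φ : Finset ((Fin d → ℝ) → ℝ), (∀ φ ∈ Φ, Measurable φ ∧ ∀ x, |φ x| ≤ 1) →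
      (volume {x | x ∈ C ∧ ∃ φ ∈ Φ, δ * N ≤ |∑ i, φ (x i) - N * avg d L φ|}).toReal ≤
        (volume C).toReal * (2 * Φ.card * Real.exp (-(N * (δ ^ 2 / 2 - κ)))))
    (K : ℝ) (hK : 0 < K) :
    (volume {x | x ∈ C ∧ ∃ ξ : (Fin d → Fin n) → Fin d → ℝ, (∀ c k, |ξ c k| ≤ K) ∧
        4 * δ * N ≤ ∑ c, ‖∑ i, chi R c (ξ c) (x i) -
          N * ((∫ y in cube d L, chi R c (ξ c) y) / (L : ℂ) ^ d)‖}).toReal ≤
      (volume C).toReal * (4 * (2 * (2 * d * K * R / δ + 3) ^ d) ^ (n ^ d) *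
        Real.exp (-(N * (δ ^ 2 / 2 - κ)))) := by
  have hd0 : (0 : ℝ) < d := by exact_mod_cast hd
  set τ : ℝ := δ / (d * R) with hτdef
  have hτ : 0 < τ := by positivity
  have hdτ : d * (τ * R) ≤ δ := by
    rw [hτdef]
    apply le_of_eq
    field_simp
  set M := ⌊K / τ⌋₊ with hM
  set Ψ : (((Fin d → Fin n) → Fin d → Fin (2 * M + 2)) × ((Fin d → Fin n) → Bool) × Bool) →
      ((Fin d → ℝ) → ℝ) := fun p y =>
    if p.2.2 then (F R (fun c k => gr τ M (p.1 c k)) p.2.1 y).re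
    else (F R (fun c k => gr τ M (p.1 c k)) p.2.1 y).im with hΨ
  set Φ : Finset ((Fin d → ℝ) → ℝ) := Finset.univ.image Ψ with hΦ
  have hprop : ∀ φ ∈ Φ, Measurable φ ∧ ∀ x, |φ x| ≤ 1 := by
    intro φ hφ
    obtain ⟨p, -, rfl⟩ := Finset.mem_image.1 hφ
    obtain ⟨g, b, t⟩ := p
    cases t with
    | true =>
      refine ⟨?_, fun y => ?_⟩
      · exact Complex.measurable_re.comp (F_meas R _ b)
      · exact (Complex.abs_re_le_norm _).trans (F_norm hR _ b y)
    | false =>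
      refine ⟨?_, fun y => ?_⟩
      · exact Complex.measurable_im.comp (F_meas R _ b)
      · exact (Complex.abs_im_le_norm _).trans (F_norm hR _ b y)
  have hcard : (2 : ℝ) * Φ.card ≤ 4 * (2 * (2 * d * K * R / δ + 3) ^ d) ^ (n ^ d) := by
    have h1 : Φ.card ≤ ((2 * M + 2) ^ d) ^ (n ^ d) * (2 ^ (n ^ d) * 2) := by
      refine Finset.card_image_le.trans (le_of_eq ?_)
      simp [Fintype.card_prod]
    have h2 : (M : ℝ) ≤ K / τ := Nat.floor_le (by positivity)
    have h3 : K / τ = d * K * R / δ := by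
      rw [hτdef]
      field_simp
    have h4 : ((2 * M + 2 : ℕ) : ℝ) ≤ 2 * d * K * R / δ + 3 := by
      push_cast
      rw [h3] at h2
      have : 2 * d * K * R / δ = 2 * (d * K * R / δ) := by ring
      rw [this]
      linarith
    have h5 : (Φ.card : ℝ) ≤ (((2 * M + 2 : ℕ) : ℝ) ^ d) ^ (n ^ d) * (2 ^ (n ^ d) * 2) := by
      exact_mod_cast h1
    have h6 : ((((2 * M + 2 : ℕ) : ℝ)) ^ d) ^ (n ^ d) ≤ ((2 * d * K * R / δ + 3) ^ d) ^ (n ^ d) := by
      gcongr
    calc (2 : ℝ) * Φ.card ≤ 2 * (((2 * d * K * R / δ + 3) ^ d) ^ (n ^ d) * (2 ^ (n ^ d) * 2)) := by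
          refine mul_le_mul_of_nonneg_left (h5.trans ?_) (by norm_num)
          exact mul_le_mul_of_nonneg_right h6 (by positivity)
      _ = 4 * (2 * (2 * d * K * R / δ + 3) ^ d) ^ (n ^ d) := by
          rw [mul_pow 2]
          ring
  have hsub : {x | x ∈ C ∧ ∃ ξ : (Fin d → Fin n) → Fin d → ℝ, (∀ c k, |ξ c k| ≤ K) ∧
        4 * δ * N ≤ ∑ c, ‖∑ i, chi R c (ξ c) (x i) -
          N * ((∫ y in cube d L, chi R c (ξ c) y) / (L : ℂ) ^ d)‖} ⊆
      {x | x ∈ C ∧ ∃ φ ∈ Φ, δ * N ≤ |∑ i, φ (x i) - N * avg d L φ|} := by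
    rintro x ⟨hxC, ξ, hξ, hbig⟩
    refine ⟨hxC, ?_⟩
    by_contra hcon
    push Not at hcon
    choose g hg using fun c k => exists_gr hτ hK (hξ c k)
    have hr := S_round (N := N) hL hR hτ.le hδ.le hdτ x ξ (fun c k => gr τ M (g c k)) hg
    have hFi : ∀ b, IntegrableOn (F R (fun c k => gr τ M (g c k)) b) (cube d L) := fun b =>
      intOn d L (F_meas R _ b).aestronglyMeasurable (F_norm hR _ b)
    -- real parts
    have hre : ∑ c, |(S L x (chi R c (fun k => gr τ M (g c k)))).re| < δ * N := by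
      set b : (Fin d → Fin n) → Bool := fun c =>
        decide (0 ≤ (S L x (chi R c (fun k => gr τ M (g c k)))).re) with hb
      have h1 := hcon (Ψ (g, b, true)) (Finset.mem_image_of_mem _ (Finset.mem_univ _))
      have h2 : ∑ i, Ψ (g, b, true) (x i) - N * avg d L (Ψ (g, b, true)) =
          (S L x (F R (fun c k => gr τ M (g c k)) b)).re := by
        rw [S_re L x (hFi b)]
        simp [hΨ]
      rw [h2, S_F, Complex.re_sum] at h1
      refine lt_of_le_of_lt (le_trans (le_of_eq ?_) (le_abs_self _)) h1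
      refine Finset.sum_congr rfl fun c _ => ?_
      rw [Complex.re_ofReal_mul]
      by_cases h3 : 0 ≤ (S L x (chi R c (fun k => gr τ M (g c k)))).re
      · rw [abs_of_nonneg h3]
        simp [hb, h3]
      · rw [abs_of_neg (not_le.1 h3)]
        simp [hb, h3]
    have him : ∑ c, |(S L x (chi R c (fun k => gr τ M (g c k)))).im| < δ * N := by
      set b : (Fin d → Fin n) → Bool := fun c =>
        decide (0 ≤ (S L x (chi R c (fun k => gr τ M (g c k)))).im) with hb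
      have h1 := hcon (Ψ (g, b, false)) (Finset.mem_image_of_mem _ (Finset.mem_univ _))
      have h2 : ∑ i, Ψ (g, b, false) (x i) - N * avg d L (Ψ (g, b, false)) =
          (S L x (F R (fun c k => gr τ M (g c k)) b)).im := by
        rw [S_im L x (hFi b)]
        simp [hΨ]
      rw [h2, S_F, Complex.im_sum] at h1
      refine lt_of_le_of_lt (le_trans (le_of_eq ?_) (le_abs_self _)) h1
      refine Finset.sum_congr rfl fun c _ => ?_
      rw [Complex.im_ofReal_mul]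
      by_cases h3 : 0 ≤ (S L x (chi R c (fun k => gr τ M (g c k)))).im
      · rw [abs_of_nonneg h3]
        simp [hb, h3]
      · rw [abs_of_neg (not_le.1 h3)]
        simp [hb, h3]
    have h5 : ∑ c, ‖S L x (chi R c (ξ c))‖ ≤
        ∑ c, (|(S L x (chi R c (fun k => gr τ M (g c k)))).re| +
          |(S L x (chi R c (fun k => gr τ M (g c k)))).im|) +
        ∑ c, ‖S L x (chi R c (ξ c)) - S L x (chi R c (fun k => gr τ M (g c k)))‖ := by
      rw [← Finset.sum_add_distrib]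
      refine Finset.sum_le_sum fun c _ => ?_
      have h6 := norm_add_le (S L x (chi R c (fun k => gr τ M (g c k))))
        (S L x (chi R c (ξ c)) - S L x (chi R c (fun k => gr τ M (g c k))))
      rw [add_sub_cancel] at h6
      have h7 := Complex.norm_le_abs_re_add_abs_im (S L x (chi R c (fun k => gr τ M (g c k))))
      linarith
    rw [Finset.sum_add_distrib] at h5
    have h8 : ∑ c, ‖S L x (chi R c (ξ c))‖ < 4 * δ * N := by
      have h9 : 4 * δ * N = δ * N + δ * N + 2 * (δ * N) := by ring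
      rw [h9]
      linarith
    exact absurd hbig (not_le.2 h8)
  have hfin : volume {x | x ∈ C ∧ ∃ φ ∈ Φ, δ * N ≤ |∑ i, φ (x i) - N * avg d L φ|} ≠ ⊤ :=
    ((measure_mono fun x hx => hx.1).trans_lt hCv).ne
  refine (ENNReal.toReal_mono hfin (measure_mono hsub)).trans ((hfam Φ hprop).trans ?_)
  refine mul_le_mul_of_nonneg_left ?_ ENNReal.toReal_nonneg
  exact mul_le_mul_of_nonneg_right hcard (Real.exp_nonneg _)

end Pool.Agent.J4.H90.NO
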