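import Pool.Agent.J4.H90.NO.Mgf
import Pool.Agent.J4.H90.NO.Hoe
import Pool.Agent.J4.H90.NO.Lmod

/-!
Assembly.
-/

set_option autoImplicit false
set_option maxHeartbeats 4000000
open MeasureTheory Finset Filter Topology

namespace Pool.Agent.J4.H90.NO

open Pool.Agent.K4H61.HS

lemma config_meas (d : ℕ) (r L : ℝ) (N : ℕ) : MeasurableSet (config d r L N) := by
  have : config d r L N = (⋂ i, ⋂ k, {x : Fin N → Fin d → ℝ | x i k ∈ Set.Icc (0 : ℝ) L}) ∩
      ⋂ i, ⋂ j, ⋂ (_ : i ≠ j), {x | r ^ 2 ≤ ∑ k, (x i k - x j k) ^ 2} := by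
    ext x
    simp [config, Set.mem_iInter]
  rw [this]
  refine MeasurableSet.inter ?_ ?_
  · refine MeasurableSet.iInter fun i => MeasurableSet.iInter fun k => ?_
    exact measurableSet_Icc.preimage (by fun_prop)
  · refine MeasurableSet.iInter fun i => MeasurableSet.iInter fun j => MeasurableSet.iInter fun _ => ?_
    exact measurableSet_le measurable_const (by fun_prop)

/-- choice of the side of the cells -/
lemma exists_side {d : ℕ} (hd : 1 ≤ d) (A κ ρ : ℝ) (hA : 0 < A) (hκ : 0 < κ) (hρ : 0 < ρ) :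
    ∃ R₀ : ℝ, 0 < R₀ ∧ ∀ R ≥ R₀, (Real.log 2 + d * Real.log (A * R + 3)) / (ρ * R ^ d) < κ := by
  have hlim : Tendsto (fun R : ℝ => (Real.log 2 + d * Real.log (A * R + 3)) / (ρ * R ^ d)) atTop (𝓝 0) := by
    have h0 : Tendsto (fun R : ℝ => A * R + 3) atTop atTop :=
      tendsto_atTop_add_const_right _ _ (tendsto_id.const_mul_atTop hA)
    have h1 : Tendsto (fun R : ℝ => Real.log (A * R + 3) / R) atTop (𝓝 0) := by
      have h2 := (Real.tendsto_pow_log_div_mul_add_atTop (1 / A) (-(3 / A)) 1 (by positivity)).comp h0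
      refine h2.congr fun R => ?_
      simp only [Function.comp, pow_one]
      congr 1
      field_simp
      ring
    have h2 : Tendsto (fun R : ℝ => Real.log 2 / R) atTop (𝓝 0) := tendsto_const_nhds.div_atTop tendsto_id
    have h3 := (h2.add (h1.const_mul (d : ℝ))).div_const ρ
    rw [mul_zero, add_zero, zero_div] at h3
    refine squeeze_zero' ?_ ?_ h3
    · filter_upwards [eventually_ge_atTop 1] with R hR
      have : 0 ≤ Real.log (A * R + 3) := Real.log_nonneg (by nlinarith)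
      have := Real.log_nonneg (show (1:ℝ) ≤ 2 by norm_num)
      positivity
    · filter_upwards [eventually_ge_atTop 1] with R hR
      have h5 : 0 ≤ Real.log (A * R + 3) := Real.log_nonneg (by nlinarith)
      have h6 := Real.log_nonneg (show (1:ℝ) ≤ 2 by norm_num)
      have h7 : R ≤ R ^ d := le_self_pow₀ hR (by omega)
      have h8 : (Real.log 2 / R + d * (Real.log (A * R + 3) / R)) / ρ =
          (Real.log 2 + d * Real.log (A * R + 3)) / (ρ * R) := by
        field_simp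
      rw [h8]
      have hR0 : 0 < R := by linarith
      gcongr
  obtain ⟨R₀, hR₀⟩ := eventually_atTop.1 (hlim.eventually_lt_const hκ)
  exact ⟨max R₀ 1, by positivity, fun R hR => hR₀ R ((le_max_left _ _).trans hR)⟩

/-- measurable sets of configurations of the cube `[0,L]^d` whose volume is at least the one of the configurations of the
cube of side `L - 2r`; for instance the configurations with a boundary condition -/
def Sub (d : ℕ) (r L : ℝ) (N : ℕ) (C : Set (Fin N → Fin d → ℝ)) : Prop :=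
  MeasurableSet C ∧ C ⊆ config d r L N ∧ volume (config d r (L - 2 * r) N) ≤ volume C

theorem final (ε : ℝ) (hε : 0 < ε) : ∃ d₀ : ℕ, ∀ d ≥ d₀, ∀ r > 0, ∀ ρ > 0,
    ρ * bv d r ≤ (Real.log (2 / √3) - ε) * d →
    ∀ (L : ℕ → ℝ) (N : ℕ → ℕ), Tendsto L atTop atTop →
    Tendsto (fun k => (N k : ℝ) / L k ^ d) atTop (𝓝 ρ) →
    (∀ᶠ k in atTop, ∀ C : Set (Fin (N k) → Fin d → ℝ), Sub d r (L k) (N k) C → 0 < (volume C).toReal ∧
      (∀ φ : (Fin d → ℝ) → ℝ, Measurable φ → (∀ x, |φ x| ≤ ε / 4 * d) →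
        ∫ x in C, ∏ i, Real.exp (φ (x i)) ≤
          (volume C).toReal * avg d (L k) (fun y => Real.exp (φ y)) ^ (N k) *
            Real.exp (N k * Real.exp (-(ε / 6 * (d : ℝ))))) ∧
      ∀ δ : ℝ, 0 < δ → δ ≤ 1 → ∀ Φ : Finset ((Fin d → ℝ) → ℝ),
        (∀ φ ∈ Φ, Measurable φ ∧ ∀ x, |φ x| ≤ 1) →
        (volume {x | x ∈ C ∧ ∃ φ ∈ Φ, δ * N k ≤ |∑ i, φ (x i) - N k * avg d (L k) φ|}).toReal ≤
        (volume C).toReal *
          (2 * Φ.card * Real.exp (-(N k * (δ ^ 2 / 2 - Real.exp (-(ε / 6 * (d : ℝ)))))))) ∧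
    ∀ K > 0, ∃ R₀ > 0, ∀ R ≥ R₀, ∀ᶠ k in atTop,
      ∀ C : Set (Fin (N k) → Fin d → ℝ), Sub d r (L k) (N k) C →
      (volume {x | x ∈ C ∧
        ∃ ξ : (Fin d → Fin (⌊L k / R⌋₊ + 1)) → Fin d → ℝ, (∀ c j, |ξ c j| ≤ K) ∧
        8 * Real.exp (-(ε / 12 * (d : ℝ))) * N k ≤ ∑ c, ‖∑ i, chi R c (ξ c) (x i) -
          N k * ((∫ y in cube d (L k), chi R c (ξ c) y) / (L k : ℂ) ^ d)‖}).toReal ≤
      (volume C).toReal * Real.exp (-(N k * Real.exp (-(ε / 6 * (d : ℝ))) / 2)) := by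
  have hm := mgf ε hε
  have h1 : ∀ᶠ d : ℕ in atTop, 1 ≤ ε / 4 * (d : ℝ) ∧ 2 * Real.exp (-(ε / 12 * (d : ℝ))) ≤ 1 ∧ 1 ≤ d := by
    have e1 : Tendsto (fun d : ℕ => ε / 4 * (d : ℝ)) atTop atTop :=
      tendsto_natCast_atTop_atTop.const_mul_atTop (by positivity)
    have e2 : Tendsto (fun d : ℕ => ε / 12 * (d : ℝ)) atTop atTop :=
      tendsto_natCast_atTop_atTop.const_mul_atTop (by positivity)
    have e3 : Tendsto (fun d : ℕ => 2 * Real.exp (-(ε / 12 * (d : ℝ)))) atTop (𝓝 (2 * 0)) :=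
      (Real.tendsto_exp_neg_atTop_nhds_zero.comp e2).const_mul 2
    rw [mul_zero] at e3
    filter_upwards [e1.eventually_ge_atTop 1, e3.eventually_lt_const one_pos,
      eventually_ge_atTop 1] with d k1 k2 k3 using ⟨k1, k2.le, k3⟩
  obtain ⟨d₀, hd₀⟩ := eventually_atTop.1 (hm.and h1)
  refine ⟨d₀, fun d hd r hr ρ hρ hlam L N hL hN => ?_⟩
  obtain ⟨hmd, hM1, hδ1, hd1⟩ := hd₀ d hd
  have hmain := hmd r hr ρ hρ hlam L N hL hN
  set κ := Real.exp (-(ε / 6 * (d : ℝ))) with hκ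
  have hκ0 : 0 < κ := Real.exp_pos _
  have hA : ∀ᶠ k in atTop, ∀ C : Set (Fin (N k) → Fin d → ℝ), Sub d r (L k) (N k) C →
      0 < (volume C).toReal ∧
      (∀ φ : (Fin d → ℝ) → ℝ, Measurable φ → (∀ x, |φ x| ≤ ε / 4 * d) →
        ∫ x in C, ∏ i, Real.exp (φ (x i)) ≤
          (volume C).toReal *
            avg d (L k) (fun y => Real.exp (φ y)) ^ (N k) * Real.exp (N k * κ)) ∧
      ∀ δ : ℝ, 0 < δ → δ ≤ 1 → ∀ Φ : Finset ((Fin d → ℝ) → ℝ),
        (∀ φ ∈ Φ, Measurable φ ∧ ∀ x, |φ x| ≤ 1) →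
        (volume {x | x ∈ C ∧ ∃ φ ∈ Φ, δ * N k ≤ |∑ i, φ (x i) - N k * avg d (L k) φ|}).toReal ≤
        (volume C).toReal *
          (2 * Φ.card * Real.exp (-(N k * (δ ^ 2 / 2 - κ)))) := by
    filter_upwards [hmain, hL.eventually_gt_atTop 0] with k k1 k2 C hC
    obtain ⟨hCm, hCs, hCv⟩ := hC
    have hfin : volume C < ⊤ := lt_of_le_of_lt (measure_mono hCs) (config_lt_top r (L k) (N k))
    have hVV : (volume (config d r (L k - 2 * r) (N k))).toReal ≤ (volume C).toReal :=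
      ENNReal.toReal_mono hfin.ne hCv
    have hpos : 0 < (volume C).toReal := lt_of_lt_of_le k1.1 hVV
    have hmgf : ∀ φ : (Fin d → ℝ) → ℝ, Measurable φ → (∀ x, |φ x| ≤ ε / 4 * d) →
        ∫ x in C, ∏ i, Real.exp (φ (x i)) ≤
          (volume C).toReal *
            avg d (L k) (fun y => Real.exp (φ y)) ^ (N k) * Real.exp (N k * κ) := by
      intro φ hφ hφM
      have h2 : ∫ x in C, ∏ i, Real.exp (φ (x i)) ≤
          ∫ x in config d r (L k) (N k), ∏ i, Real.exp (φ (x i)) := by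
        refine setIntegral_mono_set ?_ ?_ (HasSubset.Subset.eventuallyLE hCs)
        · refine Measure.integrableOn_of_bounded (M := Real.exp (ε / 4 * d) ^ (N k))
            (config_lt_top r (L k) (N k)).ne ?_ ?_
          · refine Measurable.aestronglyMeasurable ?_
            refine Finset.measurable_prod _ fun i _ => ?_
            exact Real.measurable_exp.comp (hφ.comp (measurable_pi_apply i))
          · refine Eventually.of_forall fun x => ?_
            rw [Real.norm_eq_abs, abs_of_nonneg (prod_nonneg fun i _ => (Real.exp_pos _).le)]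
            calc ∏ i, Real.exp (φ (x i)) ≤ ∏ _i : Fin (N k), Real.exp (ε / 4 * d) :=
                  prod_le_prod (fun i _ => (Real.exp_pos _).le)
                    (fun i _ => Real.exp_le_exp.2 (abs_le.1 (hφM (x i))).2)
              _ = Real.exp (ε / 4 * d) ^ (N k) := by simp
        · exact Eventually.of_forall fun x => prod_nonneg fun i _ => (Real.exp_pos _).le
      refine h2.trans ((k1.2 φ hφ hφM).trans ?_)
      have h3 : 0 ≤ avg d (L k) (fun y => Real.exp (φ y)) :=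
        div_nonneg (integral_nonneg fun x => (Real.exp_pos _).le) (by positivity)
      gcongr
    refine ⟨hpos, hmgf, fun δ hδ hδ1' Φ hΦ => ?_⟩
    exact chernoff (L k) k2 C hCm hpos κ (ε / 4 * d) hM1 hmgf δ hδ hδ1' Φ hΦ
  refine ⟨hA, fun K hK => ?_⟩
  set δ := 2 * Real.exp (-(ε / 12 * (d : ℝ))) with hδ
  have hδ0 : 0 < δ := by positivity
  have hδ2 : δ ^ 2 / 2 - κ = κ := by
    have : Real.exp (-(ε / 12 * (d : ℝ))) ^ 2 = κ := by
      rw [hκ, ← Real.exp_nat_mul]; congr 1; push_cast; ring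
    rw [hδ, mul_pow, this]; ring
  obtain ⟨R₀, hR₀, hR⟩ := exists_side hd1 (2 * d * K / δ) (κ / 4) ρ
    (by have : (0:ℝ) < d := by exact_mod_cast hd1
        positivity) (by positivity) hρ
  refine ⟨R₀, hR₀, fun R hRR => ?_⟩
  have hR0 : 0 < R := lt_of_lt_of_le hR₀ hRR
  have hside := hR R hRR
  set Y : ℝ := Real.log 2 + d * Real.log (2 * d * K / δ * R + 3) with hY
  -- the number of cells divided by the number of particles
  have hNinf : Tendsto (fun k => (N k : ℝ)) atTop atTop := lim_N hd1 hρ hL hN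
  have hcnt : Tendsto (fun k => (((⌊L k / R⌋₊ + 1 : ℕ) : ℝ) ^ d * Y + Real.log 4) / N k) atTop
      (𝓝 (Y / (ρ * R ^ d))) := by
    have hmL : Tendsto (fun k => ((⌊L k / R⌋₊ + 1 : ℕ) : ℝ) * R / L k) atTop (𝓝 1) := lim_floor' hR0 hL
    have e1 := (lim_Nn hR0 hL hmL hN)
    have e2 := e1.inv₀ (by positivity)
    have e3 : Tendsto (fun k => Real.log 4 / (N k : ℝ)) atTop (𝓝 0) := tendsto_const_nhds.div_atTop hNinf
    have e4 := (e2.mul_const Y).add e3
    have e5 : (ρ * R ^ d)⁻¹ * Y + 0 = Y / (ρ * R ^ d) := by rw [add_zero]; ring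
    rw [e5] at e4
    refine e4.congr' ?_
    filter_upwards [hNinf.eventually_gt_atTop 0] with k hk
    rw [inv_div]
    ring
  filter_upwards [hA, hcnt.eventually_lt_const (lt_trans hside (by linarith : κ / 4 < κ / 2)),
    hNinf.eventually_ge_atTop 1, hL.eventually_gt_atTop 0] with k kA k2 k3 k4 C hC
  have k1 := kA C hC
  have hNk : (0 : ℝ) < N k := by linarith
  have hN1 : 1 ≤ N k := by exact_mod_cast k3
  have hn : L k < ((⌊L k / R⌋₊ + 1 : ℕ) : ℝ) * R := by
    have := Nat.lt_floor_add_one (L k / R)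
    rw [div_lt_iff₀ hR0] at this
    push_cast
    exact this
  have hfin : volume C < ⊤ := lt_of_le_of_lt (measure_mono hC.2.1) (config_lt_top r (L k) (N k))
  have hl := local_modes (n := ⌊L k / R⌋₊ + 1) hd1 hN1 (L k) R k4 hR0 hn C
    hfin (fun x hx i j => (hC.2.1 hx).1 i j) δ κ hδ0 hδ1
    (fun Φ hΦ => k1.2.2 δ hδ0 hδ1 Φ hΦ) K hK
  have h8 : 4 * δ = 8 * Real.exp (-(ε / 12 * (d : ℝ))) := by rw [hδ]; ring
  rw [h8, hδ2] at hl
  refine hl.trans (mul_le_mul_of_nonneg_left ?_ k1.1.le)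
  -- the numerical bound
  rw [div_lt_iff₀ hNk] at k2
  set n : ℕ := ⌊L k / R⌋₊ + 1 with hn'
  have hb3 : 2 * d * K / δ * R + 3 = 2 * d * K * R / δ + 3 := by ring
  have hbase : 0 < 2 * d * K * R / δ + 3 := by
    have : (0 : ℝ) < d := by exact_mod_cast hd1
    positivity
  have hexpY : Real.exp Y = 2 * (2 * d * K * R / δ + 3) ^ d := by
    rw [hY, Real.exp_add, Real.exp_log (by norm_num), hb3, Real.exp_nat_mul, Real.exp_log hbase]
  have h9 : 4 * (2 * (2 * d * K * R / δ + 3) ^ d) ^ (n ^ d) =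
      Real.exp ((n : ℝ) ^ d * Y + Real.log 4) := by
    rw [Real.exp_add, Real.exp_log (by norm_num), ← hexpY, ← Real.exp_nat_mul]
    push_cast
    ring
  rw [h9, ← Real.exp_add]
  refine Real.exp_le_exp.2 ?_
  linarith

end Pool.Agent.J4.H90.NO
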