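import Pool.Agent.J4.H90.NO.Defs

/-!
Project NO: all wave vectors at the same time, by a net of wave vectors.
-/

set_option autoImplicit false
open MeasureTheory Finset

namespace Pool.Agent.J4.H90.NO

open Pool.Agent.K4H61.HS

namespace Mod

variable {d N : ℕ}

/-- the phase -/
def ph (ξ y : Fin d → ℝ) : ℝ := ∑ k, ξ k * y k

lemma ph_cont (ξ : Fin d → ℝ) : Continuous (ph ξ) := by
  unfold ph
  fun_prop

lemma cube_eq (L : ℝ) : cube d L = Set.univ.pi fun _ => Set.Icc (0:ℝ) L := by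
  ext y
  simp only [cube, Set.mem_ofPred_eq, Set.mem_pi, Set.mem_univ, true_imp_iff]

lemma cube_meas (L : ℝ) : MeasurableSet (cube d L) := by
  rw [cube_eq]
  exact MeasurableSet.univ_pi fun _ => measurableSet_Icc

lemma cube_vol {L : ℝ} (hL : 0 < L) : volume (cube d L) = ENNReal.ofReal (L ^ d) := by
  rw [cube_eq, volume_pi_pi]
  simp only [Real.volume_Icc, sub_zero, Finset.prod_const, Finset.card_univ, Fintype.card_fin]
  rw [ENNReal.ofReal_pow hL.le]

lemma exp_sub_le (a b : ℝ) :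
    ‖Complex.exp (Complex.I * (a : ℂ)) - Complex.exp (Complex.I * (b : ℂ))‖ ≤ |a - b| := by
  have h1 : Complex.exp (Complex.I * (a : ℂ)) - Complex.exp (Complex.I * (b : ℂ)) =
      Complex.exp (Complex.I * (b : ℂ)) * (Complex.exp (Complex.I * ((a - b : ℝ) : ℂ)) - 1) := by
    rw [mul_sub, mul_one, ← Complex.exp_add]
    congr 2
    push_cast
    ring
  rw [h1, norm_mul, Complex.norm_exp_I_mul_ofReal, one_mul]
  have := Real.norm_exp_I_mul_ofReal_sub_one_le (x := a - b)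
  rwa [Real.norm_eq_abs] at this

lemma exp_int (L : ℝ) (hL : 0 < L) (ξ : Fin d → ℝ) :
    IntegrableOn (fun y => Complex.exp (Complex.I * ((ph ξ y : ℝ) : ℂ))) (cube d L) := by
  refine Measure.integrableOn_of_bounded (M := 1) ?_ ?_ ?_
  · rw [cube_vol hL]; exact ENNReal.ofReal_ne_top
  · have : Continuous (fun y => Complex.exp (Complex.I * ((ph ξ y : ℝ) : ℂ))) := by
      have := ph_cont ξ
      fun_prop
    exact this.aestronglyMeasurable
  · refine Filter.Eventually.of_forall fun x => ?_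
    rw [Complex.norm_exp_I_mul_ofReal]

lemma cos_int (L : ℝ) (hL : 0 < L) (ξ : Fin d → ℝ) :
    IntegrableOn (fun y => Real.cos (ph ξ y)) (cube d L) := by
  refine Measure.integrableOn_of_bounded (M := 1) ?_ ?_ ?_
  · rw [cube_vol hL]; exact ENNReal.ofReal_ne_top
  · have : Continuous (fun y => Real.cos (ph ξ y)) := by
      have := ph_cont ξ
      fun_prop
    exact this.aestronglyMeasurable
  · refine Filter.Eventually.of_forall fun x => ?_
    rw [Real.norm_eq_abs]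
    exact Real.abs_cos_le_one _

lemma sin_int (L : ℝ) (hL : 0 < L) (ξ : Fin d → ℝ) :
    IntegrableOn (fun y => Real.sin (ph ξ y)) (cube d L) := by
  refine Measure.integrableOn_of_bounded (M := 1) ?_ ?_ ?_
  · rw [cube_vol hL]; exact ENNReal.ofReal_ne_top
  · have : Continuous (fun y => Real.sin (ph ξ y)) := by
      have := ph_cont ξ
      fun_prop
    exact this.aestronglyMeasurable
  · refine Filter.Eventually.of_forall fun x => ?_
    rw [Real.norm_eq_abs]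
    exact Real.abs_sin_le_one _

lemma exp_eq (a : ℝ) : Complex.exp (Complex.I * (a : ℂ)) =
    ((Real.cos a : ℝ) : ℂ) + ((Real.sin a : ℝ) : ℂ) * Complex.I := by
  rw [mul_comm, Complex.exp_mul_I, Complex.ofReal_cos, Complex.ofReal_sin]

lemma int_exp_eq (L : ℝ) (hL : 0 < L) (ξ : Fin d → ℝ) :
    (∫ y in cube d L, Complex.exp (Complex.I * ((ph ξ y : ℝ) : ℂ))) =
      ((∫ y in cube d L, Real.cos (ph ξ y) : ℝ) : ℂ) +
        ((∫ y in cube d L, Real.sin (ph ξ y) : ℝ) : ℂ) * Complex.I := by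
  simp_rw [exp_eq]
  rw [integral_add, integral_mul_const, integral_complex_ofReal, integral_complex_ofReal]
  · exact (cos_int L hL ξ).ofReal
  · exact (sin_int L hL ξ).ofReal.mul_const _

/-- the sum for the wave vector `ξ`, minus `N` times the mean -/
noncomputable def S (d N : ℕ) (L : ℝ) (x : Fin N → Fin d → ℝ) (ξ : Fin d → ℝ) : ℂ :=
  ∑ i, Complex.exp (Complex.I * ((ph ξ (x i) : ℝ) : ℂ)) -
    N * ((∫ y in cube d L, Complex.exp (Complex.I * ((ph ξ y : ℝ) : ℂ))) / (L : ℂ) ^ d)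

lemma S_eq (L : ℝ) (hL : 0 < L) (x : Fin N → Fin d → ℝ) (ξ : Fin d → ℝ) :
    S d N L x ξ =
      ((∑ i, Real.cos (ph ξ (x i)) - N * avg d L (fun y => Real.cos (ph ξ y)) : ℝ) : ℂ) +
      ((∑ i, Real.sin (ph ξ (x i)) - N * avg d L (fun y => Real.sin (ph ξ y)) : ℝ) : ℂ) *
        Complex.I := by
  unfold S avg
  rw [int_exp_eq L hL]
  simp_rw [exp_eq]
  rw [Finset.sum_add_distrib, ← Finset.sum_mul]
  push_cast
  ring

lemma S_diff (L : ℝ) (hL : 0 < L) (x : Fin N → Fin d → ℝ) (hx : ∀ i, x i ∈ cube d L)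
    (ξ ξ' : Fin d → ℝ) (δ : ℝ) (h : ∀ y ∈ cube d L, |ph ξ y - ph ξ' y| ≤ δ) :
    ‖S d N L x ξ - S d N L x ξ'‖ ≤ 2 * δ * N := by
  have h1 : S d N L x ξ - S d N L x ξ' =
      ∑ i, (Complex.exp (Complex.I * ((ph ξ (x i) : ℝ) : ℂ)) -
        Complex.exp (Complex.I * ((ph ξ' (x i) : ℝ) : ℂ))) -
      N * ((∫ y in cube d L, (Complex.exp (Complex.I * ((ph ξ y : ℝ) : ℂ)) -
        Complex.exp (Complex.I * ((ph ξ' y : ℝ) : ℂ)))) / (L : ℂ) ^ d) := by
    unfold S
    rw [integral_sub (exp_int L hL ξ) (exp_int L hL ξ'), Finset.sum_sub_distrib]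
    ring
  have h2 : ‖∑ i, (Complex.exp (Complex.I * ((ph ξ (x i) : ℝ) : ℂ)) -
        Complex.exp (Complex.I * ((ph ξ' (x i) : ℝ) : ℂ)))‖ ≤ N * δ := by
    refine (norm_sum_le _ _).trans ?_
    refine (Finset.sum_le_card_nsmul _ _ δ fun i _ => ?_).trans (le_of_eq ?_)
    · exact (exp_sub_le _ _).trans (h _ (hx i))
    · rw [Finset.card_univ, Fintype.card_fin, nsmul_eq_mul]
  have h3 : ‖∫ y in cube d L, (Complex.exp (Complex.I * ((ph ξ y : ℝ) : ℂ)) -
        Complex.exp (Complex.I * ((ph ξ' y : ℝ) : ℂ)))‖ ≤ δ * L ^ d := by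
    have h4 := norm_setIntegral_le_of_norm_le_const (μ := volume) (s := cube d L) (C := δ)
      (f := fun y => (Complex.exp (Complex.I * ((ph ξ y : ℝ) : ℂ)) -
        Complex.exp (Complex.I * ((ph ξ' y : ℝ) : ℂ))))
      (by rw [cube_vol hL]; exact ENNReal.ofReal_lt_top)
      (fun y hy => (exp_sub_le _ _).trans (h y hy))
    rwa [Measure.real, cube_vol hL, ENNReal.toReal_ofReal (by positivity)] at h4
  have hLd : 0 < L ^ d := by positivity
  have h5 : ‖(N : ℂ) * ((∫ y in cube d L, (Complex.exp (Complex.I * ((ph ξ y : ℝ) : ℂ)) -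
        Complex.exp (Complex.I * ((ph ξ' y : ℝ) : ℂ)))) / (L : ℂ) ^ d)‖ ≤ N * δ := by
    rw [norm_mul, norm_div, Complex.norm_natCast, norm_pow, Complex.norm_real,
      Real.norm_of_nonneg hL.le]
    refine mul_le_mul_of_nonneg_left ?_ (Nat.cast_nonneg _)
    rwa [div_le_iff₀ hLd]
  rw [h1]
  refine (norm_sub_le _ _).trans ?_
  linarith

end Mod

open Mod in
theorem modes {d N : ℕ} (hd : 1 ≤ d) (hN : 1 ≤ N) (L : ℝ) (hL : 0 < L) (C : Set (Fin N → Fin d → ℝ))
    (hCv : volume C < ⊤) (hCL : ∀ x ∈ C, ∀ i, x i ∈ cube d L) (δ κ : ℝ) (hδ : 0 < δ) (hδ1 : δ ≤ 1)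
    (hfam : ∀ Φ : Finset ((Fin d → ℝ) → ℝ), (∀ φ ∈ Φ, Measurable φ ∧ ∀ x, |φ x| ≤ 1) →
      (volume {x | x ∈ C ∧ ∃ φ ∈ Φ, δ * N ≤ |∑ i, φ (x i) - N * avg d L φ|}).toReal ≤
        (volume C).toReal * (2 * Φ.card * Real.exp (-(N * (δ ^ 2 / 2 - κ)))))
    (K : ℝ) (hK : 0 < K) :
    (volume {x | x ∈ C ∧ ∃ ξ : Fin d → ℝ, (∀ k, |ξ k| ≤ K) ∧
        4 * δ * N ≤ ‖∑ i, Complex.exp (Complex.I * ((∑ k, ξ k * x i k : ℝ) : ℂ)) -
          N * ((∫ y in cube d L, Complex.exp (Complex.I * ((∑ k, ξ k * y k : ℝ) : ℂ))) / (L : ℂ) ^ d)‖}).toReal ≤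
      (volume C).toReal * (4 * (2 * d * K * L / δ + 3) ^ d * Real.exp (-(N * (δ ^ 2 / 2 - κ)))) := by
  classical
  have hd0 : (0:ℝ) < d := by exact_mod_cast hd
  set τ : ℝ := δ / (d * L) with hτ
  have hτ0 : 0 < τ := by positivity
  set J : Finset (Fin d → ℤ) :=
    Fintype.piFinset (fun _ => Finset.Icc ⌊-(K / τ)⌋ ⌊K / τ⌋) with hJ
  set F : (Fin d → ℤ) → (Fin d → ℝ) := fun n k => τ * n k with hF
  set Φ : Finset ((Fin d → ℝ) → ℝ) :=
    J.image (fun n => fun y => Real.cos (ph (F n) y)) ∪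
    J.image (fun n => fun y => Real.sin (ph (F n) y)) with hΦ
  have hΦ1 : ∀ φ ∈ Φ, Measurable φ ∧ ∀ x, |φ x| ≤ 1 := by
    intro φ hφ
    rw [hΦ, Finset.mem_union, Finset.mem_image, Finset.mem_image] at hφ
    rcases hφ with ⟨n, _, rfl⟩ | ⟨n, _, rfl⟩
    · exact ⟨(Real.continuous_cos.comp (ph_cont _)).measurable, fun x => Real.abs_cos_le_one _⟩
    · exact ⟨(Real.continuous_sin.comp (ph_cont _)).measurable, fun x => Real.abs_sin_le_one _⟩
  have hKτ : 0 < K / τ := by positivity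
  have hJc : (J.card : ℝ) ≤ (2 * d * K * L / δ + 3) ^ d := by
    rw [hJ, Fintype.card_piFinset]
    simp only [Int.card_Icc, Finset.prod_const, Finset.card_univ, Fintype.card_fin]
    push_cast
    refine pow_le_pow_left₀ (by positivity) ?_ d
    have h1 : (0:ℤ) ≤ ⌊K / τ⌋ + 1 - ⌊-(K / τ)⌋ := by
      have h2 : ⌊-(K / τ)⌋ ≤ ⌊K / τ⌋ := Int.floor_le_floor (by linarith)
      linarith
    have h3 : (((⌊K / τ⌋ + 1 - ⌊-(K / τ)⌋).toNat : ℕ) : ℝ) =
        ((⌊K / τ⌋ + 1 - ⌊-(K / τ)⌋ : ℤ) : ℝ) := by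
      have := Int.toNat_of_nonneg h1
      exact_mod_cast this
    rw [h3]
    push_cast
    have h4 : (⌊K / τ⌋ : ℝ) ≤ K / τ := Int.floor_le _
    have h5 : -(K / τ) < (⌊-(K / τ)⌋ : ℝ) + 1 := Int.lt_floor_add_one _
    have h6 : 2 * d * K * L / δ = 2 * (K / τ) := by
      rw [hτ]
      field_simp
    rw [h6]
    linarith
  have hΦc : (Φ.card : ℝ) ≤ 2 * (2 * d * K * L / δ + 3) ^ d := by
    have h1 : Φ.card ≤ J.card + J.card :=
      (Finset.card_union_le _ _).trans (add_le_add Finset.card_image_le Finset.card_image_le)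
    have h2 : (Φ.card : ℝ) ≤ J.card + J.card := by exact_mod_cast h1
    linarith
  have hsub : {x | x ∈ C ∧ ∃ ξ : Fin d → ℝ, (∀ k, |ξ k| ≤ K) ∧
        4 * δ * N ≤ ‖∑ i, Complex.exp (Complex.I * ((∑ k, ξ k * x i k : ℝ) : ℂ)) -
          N * ((∫ y in cube d L, Complex.exp (Complex.I * ((∑ k, ξ k * y k : ℝ) : ℂ))) / (L : ℂ) ^ d)‖} ⊆
      {x | x ∈ C ∧ ∃ φ ∈ Φ, δ * N ≤ |∑ i, φ (x i) - N * avg d L φ|} := by
    rintro x ⟨hx, ξ, hξ, hbig⟩
    refine ⟨hx, ?_⟩
    by_contra hcon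
    push Not at hcon
    have hbig' : 4 * δ * N ≤ ‖S d N L x ξ‖ := hbig
    set n : Fin d → ℤ := fun k => ⌊ξ k / τ⌋ with hn
    have hnJ : n ∈ J := by
      rw [hJ, Fintype.mem_piFinset]
      intro k
      have hk := abs_le.1 (hξ k)
      rw [Finset.mem_Icc]
      constructor
      · refine Int.floor_le_floor ?_
        rw [← neg_div]
        exact div_le_div_of_nonneg_right hk.1 hτ0.le
      · exact Int.floor_le_floor (div_le_div_of_nonneg_right hk.2 hτ0.le)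
    have hclose : ∀ y ∈ cube d L, |ph ξ y - ph (F n) y| ≤ δ := by
      intro y hy
      unfold ph
      rw [← Finset.sum_sub_distrib]
      refine (Finset.abs_sum_le_sum_abs _ _).trans ?_
      refine (Finset.sum_le_card_nsmul _ _ (τ * L) fun k _ => ?_).trans (le_of_eq ?_)
      · rw [← sub_mul, abs_mul, abs_of_nonneg (hy k).1]
        refine mul_le_mul ?_ (hy k).2 (hy k).1 hτ0.le
        have h1 : (⌊ξ k / τ⌋ : ℝ) ≤ ξ k / τ := Int.floor_le _
        have h2 : ξ k / τ < (⌊ξ k / τ⌋ : ℝ) + 1 := Int.lt_floor_add_one _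
        rw [le_div_iff₀ hτ0] at h1
        rw [div_lt_iff₀ hτ0] at h2
        rw [hF, abs_le]
        simp only [hn]
        constructor
        · nlinarith
        · nlinarith
      · rw [Finset.card_univ, Fintype.card_fin, nsmul_eq_mul, hτ]
        field_simp
    have h1 := S_diff L hL x (hCL x hx) ξ (F n) δ hclose
    have h2 : ‖S d N L x (F n)‖ < 2 * δ * N := by
      have hc := hcon (fun y => Real.cos (ph (F n) y)) (by
        rw [hΦ, Finset.mem_union]
        exact Or.inl (Finset.mem_image_of_mem _ hnJ))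
      have hs := hcon (fun y => Real.sin (ph (F n) y)) (by
        rw [hΦ, Finset.mem_union]
        exact Or.inr (Finset.mem_image_of_mem (fun n => fun y => Real.sin (ph (F n) y)) hnJ))
      rw [S_eq L hL]
      refine lt_of_le_of_lt (norm_add_le _ _) ?_
      rw [norm_mul, Complex.norm_I, mul_one, Complex.norm_real, Complex.norm_real,
        Real.norm_eq_abs, Real.norm_eq_abs]
      linarith
    have h3 : ‖S d N L x ξ‖ ≤ ‖S d N L x ξ - S d N L x (F n)‖ + ‖S d N L x (F n)‖ := by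
      have := norm_add_le (S d N L x ξ - S d N L x (F n)) (S d N L x (F n))
      rwa [sub_add_cancel] at this
    linarith
  have h1 : (volume {x | x ∈ C ∧ ∃ ξ : Fin d → ℝ, (∀ k, |ξ k| ≤ K) ∧
        4 * δ * N ≤ ‖∑ i, Complex.exp (Complex.I * ((∑ k, ξ k * x i k : ℝ) : ℂ)) -
          N * ((∫ y in cube d L, Complex.exp (Complex.I * ((∑ k, ξ k * y k : ℝ) : ℂ))) / (L : ℂ) ^ d)‖}).toReal ≤
      (volume {x | x ∈ C ∧ ∃ φ ∈ Φ, δ * N ≤ |∑ i, φ (x i) - N * avg d L φ|}).toReal := by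
    refine ENNReal.toReal_mono (ne_of_lt (lt_of_le_of_lt (measure_mono ?_) hCv)) (measure_mono hsub)
    intro x hx
    exact hx.1
  refine h1.trans ((hfam Φ hΦ1).trans ?_)
  refine mul_le_mul_of_nonneg_left ?_ ENNReal.toReal_nonneg
  refine mul_le_mul_of_nonneg_right ?_ (Real.exp_pos _).le
  linarith

end Pool.Agent.J4.H90.NO
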