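import Pool.Agent.J4.H90.NO.Final
import Pool.Agent.J4.H90.NO.Mod

/-!
All wave vectors at the same time.
-/

set_option autoImplicit false
set_option maxHeartbeats 4000000
open MeasureTheory Finset Filter Topology

namespace Pool.Agent.J4.H90.NO

open Pool.Agent.K4H61.HS

theorem global_modes {d : ℕ} (hd : 1 ≤ d) (r ρ κ δ K : ℝ) (hρ : 0 < ρ) (hκ : 0 < κ) (hδ : 0 < δ)
    (hδ1 : δ ≤ 1) (hδκ : δ ^ 2 / 2 - κ = κ) (hK : 0 < K) (L : ℕ → ℝ) (N : ℕ → ℕ)
    (hL : Tendsto L atTop atTop) (hN : Tendsto (fun k => (N k : ℝ) / L k ^ d) atTop (𝓝 ρ))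
    (hfam : ∀ᶠ k in atTop, ∀ C : Set (Fin (N k) → Fin d → ℝ), Sub d r (L k) (N k) C →
      ∀ Φ : Finset ((Fin d → ℝ) → ℝ), (∀ φ ∈ Φ, Measurable φ ∧ ∀ x, |φ x| ≤ 1) →
      (volume {x | x ∈ C ∧
          ∃ φ ∈ Φ, δ * N k ≤ |∑ i, φ (x i) - N k * avg d (L k) φ|}).toReal ≤
        (volume C).toReal *
          (2 * Φ.card * Real.exp (-(N k * (δ ^ 2 / 2 - κ))))) :
    ∀ᶠ k in atTop, ∀ C : Set (Fin (N k) → Fin d → ℝ), Sub d r (L k) (N k) C →
      (volume {x | x ∈ C ∧ ∃ ξ : Fin d → ℝ, (∀ j, |ξ j| ≤ K) ∧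
        4 * δ * N k ≤ ‖∑ i, Complex.exp (Complex.I * ((∑ j, ξ j * x i j : ℝ) : ℂ)) -
          N k * ((∫ y in cube d (L k), Complex.exp (Complex.I * ((∑ j, ξ j * y j : ℝ) : ℂ))) /
            (L k : ℂ) ^ d)‖}).toReal ≤
      (volume C).toReal * Real.exp (-(N k * κ / 2)) := by
  have hd0 : (0 : ℝ) < d := by exact_mod_cast hd
  obtain ⟨R₀, hR₀, hR⟩ := exists_side hd (2 * d * K / δ) (κ / 8) ρ (by positivity) (by positivity) hρ
  have hNinf : Tendsto (fun k => (N k : ℝ)) atTop atTop := lim_N hd hρ hL hN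
  filter_upwards [hfam, hL.eventually_ge_atTop R₀, hNinf.eventually_ge_atTop 1,
    hN.eventually_const_lt (half_lt_self hρ)] with k kA k2 k3 k4 C hC
  have k1 := kA C hC
  have hfin : volume C < ⊤ := lt_of_le_of_lt (measure_mono hC.2.1) (config_lt_top r (L k) (N k))
  have hL0 : 0 < L k := lt_of_lt_of_le hR₀ k2
  have hLd : 0 < L k ^ d := by positivity
  have hNk : (0 : ℝ) < N k := by linarith
  have hN1 : 1 ≤ N k := by exact_mod_cast k3
  have hm := modes hd hN1 (L k) hL0 C hfin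
    (fun x hx i j => (hC.2.1 hx).1 i j) δ κ hδ hδ1 k1 K hK
  rw [hδκ] at hm
  refine hm.trans (mul_le_mul_of_nonneg_left ?_ ENNReal.toReal_nonneg)
  have hs := hR (L k) k2
  rw [div_lt_iff₀ (by positivity)] at hs
  rw [lt_div_iff₀ hLd] at k4
  have hbase : 0 < 2 * d * K * L k / δ + 3 := by positivity
  have hb3 : 2 * d * K / δ * L k + 3 = 2 * d * K * L k / δ + 3 := by ring
  rw [hb3] at hs
  have hl0 : 0 ≤ Real.log (2 * d * K * L k / δ + 3) := by
    refine Real.log_nonneg ?_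
    have : 0 ≤ 2 * d * K * L k / δ := by positivity
    linarith
  have h9 : 4 * (2 * d * K * L k / δ + 3) ^ d =
      Real.exp (2 * Real.log 2 + d * Real.log (2 * d * K * L k / δ + 3)) := by
    have h4 : Real.exp (2 * Real.log 2) = 4 := by
      rw [show 2 * Real.log 2 = Real.log 2 + Real.log 2 by ring, Real.exp_add,
        Real.exp_log (by norm_num)]
      norm_num
    rw [Real.exp_add, Real.exp_nat_mul, Real.exp_log hbase, h4]
  rw [h9, ← Real.exp_add]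
  refine Real.exp_le_exp.2 ?_
  have h10 : 0 ≤ d * Real.log (2 * d * K * L k / δ + 3) := by positivity
  have h11 : 2 * Real.log 2 + d * Real.log (2 * d * K * L k / δ + 3) ≤ 2 * (κ / 8 * (ρ * L k ^ d)) := by
    linarith
  have h12 : 2 * (κ / 8 * (ρ * L k ^ d)) = κ / 2 * (ρ / 2 * L k ^ d) := by ring
  have h13 : κ / 2 * (ρ / 2 * L k ^ d) ≤ κ / 2 * N k := mul_le_mul_of_nonneg_left k4.le (by positivity)
  linarith

end Pool.Agent.J4.H90.NO
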