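import Pool.Agent.J4.H90.NO.Defs

/-!
The counting method of Kleitman and Winston for weighted independent sets.
-/

set_option autoImplicit false
open Finset

namespace Pool.Agent.J4.H90.NO

open Pool.Agent.K4H61.HS

namespace kww

variable {X : Type}

lemma icw_nonneg (R : X → X → Prop) (w : X → ℝ) (hw0 : ∀ u, 0 ≤ w u) (U : Finset X) (k : ℕ) :
    0 ≤ icw R w U k := by
  unfold icw
  exact sum_nonneg fun I _ => prod_nonneg fun u _ => hw0 u

open Classical in
lemma icw_mono (R : X → X → Prop) (w : X → ℝ) (hw0 : ∀ u, 0 ≤ w u) (U V : Finset X) (h : U ⊆ V)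
    (k : ℕ) : icw R w U k ≤ icw R w V k := by
  unfold icw
  refine sum_le_sum_of_subset_of_nonneg (fun I hI => ?_)
    (fun I _ _ => prod_nonneg fun u _ => hw0 u)
  rw [mem_filter, mem_powersetCard] at hI ⊢
  exact ⟨⟨hI.1.1.trans h, hI.1.2⟩, hI.2⟩

open Classical in
lemma icw_rec (R : X → X → Prop) (hrefl : ∀ u, R u u) (w : X → ℝ) (hw0 : ∀ u, 0 ≤ w u)
    (U : Finset X) (v : X) (M : ℕ) :
    icw R w U (M + 1) ≤ icw R w (U.erase v) (M + 1) +
      w v * icw R w (U.filter (fun u => ¬ R v u)) M := by
  unfold icw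
  have hsub : ((U.powersetCard (M + 1)).filter (Ind R)) ⊆
      (((U.erase v).powersetCard (M + 1)).filter (Ind R)) ∪
      (((U.filter (fun u => ¬ R v u)).powersetCard M).filter (Ind R)).image (insert v) := by
    intro I hI
    rw [mem_filter, mem_powersetCard] at hI
    obtain ⟨⟨hIU, hIc⟩, hI2⟩ := hI
    rw [mem_union]
    by_cases hv : v ∈ I
    · right
      rw [mem_image]
      refine ⟨I.erase v, ?_, insert_erase hv⟩
      rw [mem_filter, mem_powersetCard]
      refine ⟨⟨fun u hu => ?_, ?_⟩, fun u hu w hw => hI2 u (mem_of_mem_erase hu) w (mem_of_mem_erase hw)⟩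
      · rw [mem_filter]
        exact ⟨hIU (mem_of_mem_erase hu), hI2 v hv u (mem_of_mem_erase hu) (ne_of_mem_erase hu).symm⟩
      · rw [card_erase_of_mem hv, hIc]; rfl
    · left
      rw [mem_filter, mem_powersetCard]
      refine ⟨⟨fun u hu => mem_erase.2 ⟨fun h => hv (h ▸ hu), hIU hu⟩, hIc⟩, hI2⟩
  have hnn : ∀ I : Finset X, 0 ≤ ∏ u ∈ I, w u := fun I => prod_nonneg fun u _ => hw0 u
  refine (sum_le_sum_of_subset_of_nonneg hsub fun I _ _ => hnn I).trans ?_
  have h1 := sum_union_inter (s₁ := (((U.erase v).powersetCard (M + 1)).filter (Ind R)))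
    (s₂ := (((U.filter (fun u => ¬ R v u)).powersetCard M).filter (Ind R)).image (insert v))
    (f := fun I => ∏ u ∈ I, w u)
  have h2 : 0 ≤ ∑ I ∈ (((U.erase v).powersetCard (M + 1)).filter (Ind R)) ∩
      (((U.filter (fun u => ¬ R v u)).powersetCard M).filter (Ind R)).image (insert v),
      ∏ u ∈ I, w u := sum_nonneg fun I _ => hnn I
  have hvI : ∀ I ∈ (((U.filter (fun u => ¬ R v u)).powersetCard M).filter (Ind R)), v ∉ I := by
    intro I hI hv
    rw [mem_filter, mem_powersetCard] at hI
    have := hI.1.1 hv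
    rw [mem_filter] at this
    exact this.2 (hrefl v)
  have h3 : ∑ I ∈ (((U.filter (fun u => ¬ R v u)).powersetCard M).filter (Ind R)).image (insert v),
      ∏ u ∈ I, w u = w v * ∑ I ∈ (((U.filter (fun u => ¬ R v u)).powersetCard M).filter (Ind R)),
        ∏ u ∈ I, w u := by
    rw [sum_image, mul_sum]
    · refine sum_congr rfl fun I hI => ?_
      rw [prod_insert (hvI I hI)]
    · intro I hI J hJ hIJ
      have h5 : (insert v I).erase v = (insert v J).erase v := by rw [show insert v I = insert v J from hIJ]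
      rwa [erase_insert (hvI I hI), erase_insert (hvI J hJ)] at h5
  linarith

lemma icw_empty_succ (R : X → X → Prop) (w : X → ℝ) (M : ℕ) : icw R w ∅ (M + 1) = 0 := by
  unfold icw
  rw [powersetCard_eq_empty.2 (by simp)]
  simp

open Classical in
lemma icw_zero_le (R : X → X → Prop) (w : X → ℝ) (hw0 : ∀ u, 0 ≤ w u) (U : Finset X) :
    icw R w U 0 ≤ 1 := by
  unfold icw
  refine (sum_le_sum_of_subset_of_nonneg (filter_subset _ _)
    fun I _ _ => prod_nonneg fun u _ => hw0 u).trans ?_
  rw [powersetCard_zero]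
  simp

lemma pow_step (b t : ℝ) (hb : 0 ≤ b) (ht : 0 ≤ t) (n : ℕ) :
    b ^ (n + 1) + (n + 1 : ℝ) * t * b ^ n ≤ (b + t) ^ (n + 1) := by
  induction n with
  | zero => simp
  | succ n ih =>
    have h1 : (b + t) ^ (n + 1 + 1) = (b + t) * (b + t) ^ (n + 1) := by ring
    rw [h1]
    have h2 : (b + t) * (b ^ (n + 1) + (n + 1 : ℝ) * t * b ^ n) ≤ (b + t) * (b + t) ^ (n + 1) := by
      gcongr
    refine le_trans ?_ h2
    have h3 : (b + t) * (b ^ (n + 1) + (n + 1 : ℝ) * t * b ^ n) =
        b ^ (n + 1 + 1) + ((n : ℝ) + 1 + 1) * t * b ^ (n + 1) + (n + 1 : ℝ) * t ^ 2 * b ^ n := by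
      ring
    rw [h3]
    push_cast
    have : 0 ≤ (n + 1 : ℝ) * t ^ 2 * b ^ n := by positivity
    linarith

/-- the step with factorials -/
lemma fac_step (b t c : ℝ) (hb : 0 ≤ b) (ht : 0 ≤ t) (hc : 0 ≤ c) (n : ℕ) :
    c * b ^ (n + 1) / ((n + 1).factorial : ℝ) + t * (c * b ^ n / (n.factorial : ℝ)) ≤
      c * (b + t) ^ (n + 1) / ((n + 1).factorial : ℝ) := by
  have hfac : ((n + 1).factorial : ℝ) = (n + 1 : ℝ) * (n.factorial : ℝ) := by
    rw [Nat.factorial_succ]; push_cast; ring
  have hF : (0 : ℝ) < (n.factorial : ℝ) := by positivity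
  have hF1 : (0 : ℝ) < (n + 1 : ℝ) := by positivity
  rw [hfac]
  have e1 : c * b ^ (n + 1) / ((n + 1 : ℝ) * (n.factorial : ℝ)) +
      t * (c * b ^ n / (n.factorial : ℝ)) =
      c * (b ^ (n + 1) + (n + 1 : ℝ) * t * b ^ n) / ((n + 1 : ℝ) * (n.factorial : ℝ)) := by
    field_simp
  rw [e1]
  have := pow_step b t hb ht n
  gcongr

lemma icw_le (R : X → X → Prop) (hrefl : ∀ u, R u u) (w : X → ℝ) (hw0 : ∀ u, 0 ≤ w u)
    (U : Finset X) : ∀ K : ℕ, icw R w U K ≤ (∑ u ∈ U, w u) ^ K / (K.factorial : ℝ) := by
  classical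
  induction U using Finset.induction_on with
  | empty =>
    intro K
    cases K with
    | zero => simpa using icw_zero_le R w hw0 ∅
    | succ K => rw [icw_empty_succ]; simp
  | insert v U hv ih =>
    intro K
    cases K with
    | zero => simpa using icw_zero_le R w hw0 (insert v U)
    | succ K =>
      have h1 := icw_rec R hrefl w hw0 (insert v U) v K
      have h2 : icw R w ((insert v U).erase v) (K + 1) ≤
          (∑ u ∈ U, w u) ^ (K + 1) / ((K + 1).factorial : ℝ) := by
        refine (icw_mono R w hw0 _ U (fun u hu => ?_) _).trans (ih (K + 1))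
        have h3 := Finset.mem_erase.1 hu
        exact (Finset.mem_insert.1 h3.2).resolve_left h3.1
      have h3 : icw R w ((insert v U).filter (fun u => ¬ R v u)) K ≤
          (∑ u ∈ U, w u) ^ K / (K.factorial : ℝ) := by
        refine (icw_mono R w hw0 _ U (fun u hu => ?_) _).trans (ih K)
        have h3 := Finset.mem_filter.1 hu
        refine (Finset.mem_insert.1 h3.1).resolve_left fun h => h3.2 (h ▸ hrefl u)
      have h4 := fac_step (∑ u ∈ U, w u) (w v) 1 (sum_nonneg fun u _ => hw0 u) (hw0 v) zero_le_one K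
      have h5 : ∑ u ∈ insert v U, w u = (∑ u ∈ U, w u) + w v := by
        rw [sum_insert hv]; ring
      rw [h5]
      rw [one_mul, one_mul, one_mul] at h4
      refine le_trans ?_ h4
      have h6 : w v * icw R w ((insert v U).filter (fun u => ¬ R v u)) K ≤
          w v * ((∑ u ∈ U, w u) ^ K / (K.factorial : ℝ)) := mul_le_mul_of_nonneg_left h3 (hw0 v)
      refine le_trans ?_ (add_le_add h2 h6)
      convert h1

end kww

theorem kww {X : Type} (R : X → X → Prop) (hrefl : ∀ u, R u u) (w : X → ℝ) (hw0 : ∀ u, 0 ≤ w u)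
    (hw1 : ∀ u, w u ≤ 1) (q s : ℝ) (hq : 0 < q) (hs : 0 ≤ s)
    (h : ∀ U : Finset X, U.Nonempty → ∃ v ∈ U,
      (1 - q) * (∑ u ∈ U, w u) - s ≤ ∑ u ∈ (open Classical in U.filter (fun u => R v u)), w u) :
    ∀ j K : ℕ, ∀ U : Finset X, icw R w U (j + K) ≤
      q ^ (j.choose 2 + j * K) * ((∑ u ∈ U, w u) + th q s j) ^ (j + K) / ((j + K).factorial : ℝ) := by
  classical
  intro j
  induction j with
  | zero =>
    intro K U
    refine (kww.icw_le R hrefl w hw0 U (0 + K)).trans ?_
    simp only [Nat.choose_zero_succ, zero_mul, add_zero, pow_zero, one_mul, th, zero_add]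
    exact le_rfl
  | succ j ih =>
    intro K U
    induction hU : U.card using Nat.strong_induction_on generalizing U with
    | _ n ihn =>
      have hM : j + 1 + K = (j + K) + 1 := by ring
      rw [hM]
      have hW0 : ∀ V : Finset X, 0 ≤ ∑ u ∈ V, w u := fun V => sum_nonneg fun u _ => hw0 u
      have hth := th_succ_ge hq hs j
      have hth0 := th_nonneg hq hs j
      rcases U.eq_empty_or_nonempty with rfl | hne
      · rw [kww.icw_empty_succ]
        have := hW0 ∅
        positivity
      obtain ⟨v, hv, hdeg⟩ := h U hne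
      have hrec := kww.icw_rec R hrefl w hw0 U v (j + K)
      have h1 := ihn (n - 1) (by have : 0 < n := by (rw [← hU]; exact card_pos.2 hne)
                                 omega) (U.erase v) (by rw [card_erase_of_mem hv, hU])
      rw [hM] at h1
      have h2 := ih K (U.filter (fun u => ¬ R v u))
      have hWe : ∑ u ∈ U.erase v, w u = (∑ u ∈ U, w u) - w v := by
        have := add_sum_erase U w hv
        linarith
      rw [hWe] at h1
      have hcard : ∑ u ∈ U.filter (fun u => ¬ R v u), w u ≤ q * (∑ u ∈ U, w u) + s := by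
        have h3 := sum_filter_add_sum_filter_not U (fun u => R v u) w
        have h4 : ∑ u ∈ U.filter (fun u => R v u), w u =
            ∑ u ∈ (open Classical in U.filter (fun u => R v u)), w u := by
          congr!
        rw [← h4] at hdeg
        linarith
      set W : ℝ := ∑ u ∈ U, w u with hWdef
      set b : ℝ := W - w v + th q s (j + 1) with hb
      have hb0 : 0 ≤ b := by
        have := hw1 v
        have := hW0 U
        rw [hb]; linarith
      have hE : (j + 1).choose 2 + (j + 1) * K = (j.choose 2 + j * K) + (j + K) := by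
        have : (j + 1).choose 2 = j.choose 2 + j := by
          rw [Nat.choose_succ_succ' j 1, Nat.choose_one_right]; ring
        rw [this]; ring
      have h3 : icw R w (U.filter (fun u => ¬ R v u)) (j + K) ≤
          q ^ ((j + 1).choose 2 + (j + 1) * K) * b ^ (j + K) / ((j + K).factorial : ℝ) := by
        refine h2.trans ?_
        have h5 : ∑ u ∈ U.filter (fun u => ¬ R v u), w u + th q s j ≤ q * b := by
          have h6 : q * b = q * W + s + th q s j + q * (1 - w v) := by
            rw [hb]
            simp only [th]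
            field_simp
            ring
          have h7 : 0 ≤ q * (1 - w v) := mul_nonneg hq.le (by linarith [hw1 v])
          rw [h6]; linarith
        have h6 : (∑ u ∈ U.filter (fun u => ¬ R v u), w u + th q s j) ^ (j + K) ≤
            q ^ (j + K) * b ^ (j + K) := by
          rw [← mul_pow]
          exact pow_le_pow_left₀ (add_nonneg (hW0 _) hth0) h5 _
        have h7 : q ^ ((j + 1).choose 2 + (j + 1) * K) * b ^ (j + K) =
            q ^ (j.choose 2 + j * K) * (q ^ (j + K) * b ^ (j + K)) := by
          rw [hE, pow_add, mul_assoc]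
        rw [h7]
        exact div_le_div_of_nonneg_right (mul_le_mul_of_nonneg_left h6 (by positivity))
          (by positivity)
      have h6 : w v * icw R w (U.filter (fun u => ¬ R v u)) (j + K) ≤
          w v * (q ^ ((j + 1).choose 2 + (j + 1) * K) * b ^ (j + K) / ((j + K).factorial : ℝ)) :=
        mul_le_mul_of_nonneg_left h3 (hw0 v)
      have h7 := kww.fac_step b (w v) (q ^ ((j + 1).choose 2 + (j + 1) * K)) hb0 (hw0 v)
        (by positivity) (j + K)
      have hab : b + w v = W + th q s (j + 1) := by rw [hb]; ring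
      rw [hab] at h7
      refine le_trans ?_ h7
      refine le_trans ?_ (add_le_add h1 h6)
      convert hrec

end Pool.Agent.J4.H90.NO
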